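import Mathlib
import Pool.Agent.N248.KR.Src
set_option autoImplicit false

/-! Random tubes: the dual form of the maximal inequality. -/

namespace Pool.Agent.N248.KT

open MeasureTheory Set Metric
open scoped ENNReal NNReal
open Pool.Agent.N248.KR (E Dir Good cyl cyl_meas kmax vol_cyl_le vol_cyl_ge)

variable {d M : ℕ}

/-- the sum of the indicators -/
noncomputable def FF (δ : ℝ) (ω : Fin M → Dir (d + 1)) (a : Fin M → E (d + 1))
    (J : Finset (Fin M)) (y : E (d + 1)) : ℝ≥0∞ :=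
  ∑ i ∈ J, (cyl (1 / 2) δ (a i) (ω i : E (d + 1))).indicator 1 y

theorem FF_meas (δ : ℝ) (ω : Fin M → Dir (d + 1)) (a : Fin M → E (d + 1))
    (J : Finset (Fin M)) : Measurable (FF δ ω a J) := by
  have : FF δ ω a J = fun y => ∑ i ∈ J, (cyl (1 / 2) δ (a i) (ω i : E (d + 1))).indicator 1 y := rfl
  rw [this]
  exact Finset.measurable_fun_sum _ fun i _ => measurable_one.indicator (cyl_meas _ _ _ _)

open scoped Classical in
theorem FF_eq (δ : ℝ) (ω : Fin M → Dir (d + 1)) (a : Fin M → E (d + 1))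
    (J : Finset (Fin M)) (y : E (d + 1)) :
    FF δ ω a J y = ((J.filter fun i => y ∈ cyl (1 / 2) δ (a i) (ω i : E (d + 1))).card : ℝ≥0∞) := by
  unfold FF
  rw [Finset.card_filter]
  push_cast
  refine Finset.sum_congr rfl fun i _ => ?_
  by_cases h : y ∈ cyl (1 / 2) δ (a i) (ω i : E (d + 1))
  · rw [indicator_of_mem h, if_pos h]; rfl
  · rw [indicator_of_notMem h, if_neg h]

theorem FF_le (δ : ℝ) (ω : Fin M → Dir (d + 1)) (a : Fin M → E (d + 1))
    (J : Finset (Fin M)) (y : E (d + 1)) : FF δ ω a J y ≤ J.card := by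
  classical
  rw [FF_eq]
  exact_mod_cast Finset.card_filter_le _ _

theorem FF_zero_or (δ : ℝ) (ω : Fin M → Dir (d + 1)) (a : Fin M → E (d + 1))
    (J : Finset (Fin M)) (y : E (d + 1)) : FF δ ω a J y = 0 ∨ 1 ≤ FF δ ω a J y := by
  classical
  rw [FF_eq]
  rcases Nat.eq_zero_or_pos (J.filter fun i => y ∈ cyl (1 / 2) δ (a i) (ω i : E (d + 1))).card
    with h | h
  · left; rw [h]; simp
  · right; exact_mod_cast h

/-- the sum of the volumes -/
theorem FF_int {δ : ℝ} (hδ : 0 < δ) (ω : Fin M → Dir (d + 1)) (a : Fin M → E (d + 1))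
    (J : Finset (Fin M)) : ∫⁻ y, FF δ ω a J y ≤ ENNReal.ofReal (2 ^ d * δ ^ d * J.card) := by
  have h1 : ∫⁻ y, FF δ ω a J y = ∑ i ∈ J, volume (cyl (1 / 2) δ (a i) (ω i : E (d + 1))) := by
    unfold FF
    rw [lintegral_finsetSum _ fun i _ => measurable_one.indicator (cyl_meas _ _ _ _)]
    exact Finset.sum_congr rfl fun i _ => lintegral_indicator_one (cyl_meas _ _ _ _)
  rw [h1]
  have h2 : ∀ i ∈ J, volume (cyl (1 / 2) δ (a i) (ω i : E (d + 1))) ≤
      ENNReal.ofReal (2 ^ d * δ ^ d) := by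
    intro i _
    refine (vol_cyl_le (by norm_num) hδ.le (norm_eq_of_mem_sphere (ω i))).trans (le_of_eq ?_)
    congr 1
    rw [mul_pow]; ring
  refine (Finset.sum_le_sum h2).trans ?_
  rw [Finset.sum_const, nsmul_eq_mul, ← ENNReal.ofReal_natCast,
    ← ENNReal.ofReal_mul (by positivity)]
  exact ENNReal.ofReal_le_ofReal (le_of_eq (by ring))

theorem FF_pow_ne {δ : ℝ} (hδ : 0 < δ) (ω : Fin M → Dir (d + 1)) (a : Fin M → E (d + 1))
    (J : Finset (Fin M)) {s : ℝ} (hs : 1 ≤ s) : ∫⁻ y, FF δ ω a J y ^ s ≠ ⊤ := by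
  have h1 : ∀ y, FF δ ω a J y ^ s ≤ (J.card : ℝ≥0∞) ^ (s - 1) * FF δ ω a J y := by
    intro y
    have h2 : FF δ ω a J y ^ s = FF δ ω a J y ^ (s - 1) * FF δ ω a J y := by
      conv_rhs => rw [← ENNReal.rpow_one (FF δ ω a J y), ← ENNReal.rpow_mul, one_mul]
      rw [← ENNReal.rpow_add_of_nonneg _ _ (by linarith) zero_le_one]
      congr 1; ring
    rw [h2]
    gcongr
    exact FF_le δ ω a J y
  refine ne_top_of_le_ne_top ?_ (lintegral_mono h1)
  rw [lintegral_const_mul _ (FF_meas δ ω a J)]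
  refine ENNReal.mul_ne_top ?_ (ne_top_of_le_ne_top ENNReal.ofReal_ne_top (FF_int hδ ω a J))
  exact ENNReal.rpow_ne_top_of_nonneg (by linarith) (ENNReal.natCast_ne_top _)

theorem real_end {δ p K N x : ℝ} (hδ : 0 < δ) (hp : 1 < p) (hK : 0 ≤ K) (hN : 0 ≤ N) (hx0 : 0 ≤ x)
    (h4 : x ^ p ≤ (2 ^ d * δ ^ d) ^ p * N ^ (p - 1) * ((δ ^ d)⁻¹ * K) * x) :
    x ≤ (2 ^ d) ^ (p / (p - 1)) * K ^ (1 / (p - 1)) * δ ^ d * N := by
  have hp1 : 0 < p - 1 := by linarith
  rcases hx0.eq_or_lt with h0 | h0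
  · rw [← h0]; positivity
  have h5 : x ^ (p - 1) ≤ (2 ^ d * δ ^ d) ^ p * N ^ (p - 1) * ((δ ^ d)⁻¹ * K) := by
    have h6 : x ^ p = x ^ (p - 1) * x := by
      rw [← Real.rpow_add_one h0.ne']
      congr 1; ring
    rw [h6] at h4
    exact le_of_mul_le_mul_right h4 h0
  have hδd : 0 < δ ^ d := by positivity
  have h2d : (0 : ℝ) < 2 ^ d := by positivity
  have h6 : (2 ^ d * δ ^ d) ^ p * N ^ (p - 1) * ((δ ^ d)⁻¹ * K) =
      ((2 ^ d) ^ (p / (p - 1)) * K ^ (1 / (p - 1)) * δ ^ d * N) ^ (p - 1) := by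
    have h7 : p / (p - 1) * (p - 1) = p := by field_simp
    have h8 : 1 / (p - 1) * (p - 1) = 1 := by field_simp
    have e1 : ((2 ^ d : ℝ) ^ (p / (p - 1))) ^ (p - 1) = (2 ^ d : ℝ) ^ p := by
      rw [← Real.rpow_mul h2d.le, h7]
    have e2 : (K ^ (1 / (p - 1))) ^ (p - 1) = K := by
      rw [← Real.rpow_mul hK, h8, Real.rpow_one]
    have e3 : 0 ≤ (2 ^ d : ℝ) ^ (p / (p - 1)) := by positivity
    have e4 : 0 ≤ K ^ (1 / (p - 1)) := by positivity
    rw [Real.mul_rpow (mul_nonneg (mul_nonneg e3 e4) hδd.le) hN,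
      Real.mul_rpow (mul_nonneg e3 e4) hδd.le, Real.mul_rpow e3 e4, e1, e2,
      Real.mul_rpow h2d.le hδd.le]
    have h9 : (δ ^ d : ℝ) ^ p * (δ ^ d)⁻¹ = (δ ^ d) ^ (p - 1) := by
      rw [Real.rpow_sub hδd, Real.rpow_one, div_eq_mul_inv]
    rw [← h9]
    ring
  rw [h6] at h5
  exact (Real.rpow_le_rpow_iff hx0 (by positivity) hp1).1 h5

/-- **duality** -/
theorem dual {δ p K : ℝ} (hδ : 0 < δ) (hp : 1 < p) (hK : 0 ≤ K) {ω : Fin M → Dir (d + 1)}
    (h : Good p K δ ω) (a : Fin M → E (d + 1)) (J : Finset (Fin M)) :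
    ∫⁻ y, FF δ ω a J y ^ (p / (p - 1)) ≤
      ENNReal.ofReal ((2 ^ d) ^ (p / (p - 1)) * K ^ (1 / (p - 1)) * δ ^ d * J.card) := by
  have hp1 : 0 < p - 1 := by linarith
  set q : ℝ := p / (p - 1) with hq
  have hq1 : q - 1 = 1 / (p - 1) := by rw [hq]; field_simp; ring
  have hq0 : 1 ≤ q := by
    have : 0 < 1 / (p - 1) := by positivity
    linarith
  set X : ℝ≥0∞ := ∫⁻ y, FF δ ω a J y ^ q with hX
  have hXf : X ≠ ⊤ := FF_pow_ne hδ ω a J hq0
  set f : E (d + 1) → ℝ≥0∞ := fun y => FF δ ω a J y ^ (q - 1) with hf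
  have hfm : Measurable f := (FF_meas δ ω a J).pow_const _
  have hfp : ∫⁻ y, f y ^ p = X := by
    rw [hX]
    refine lintegral_congr fun y => ?_
    rw [hf]
    simp only
    rw [← ENNReal.rpow_mul]
    congr 1
    rw [hq1, hq]; ring
  have hG := h f hfm.aemeasurable
  rw [hfp] at hG
  -- the sum of averages
  have h1 : X = ∑ i ∈ J, ∫⁻ y in cyl (1 / 2) δ (a i) (ω i : E (d + 1)), f y := by
    have h2 : ∀ y, FF δ ω a J y ^ q =
        ∑ i ∈ J, (cyl (1 / 2) δ (a i) (ω i : E (d + 1))).indicator f y := by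
      intro y
      have h3 : FF δ ω a J y ^ q = FF δ ω a J y * FF δ ω a J y ^ (q - 1) := by
        conv_rhs => rw [← ENNReal.rpow_one (FF δ ω a J y), ← ENNReal.rpow_mul, one_mul]
        rw [← ENNReal.rpow_add_of_nonneg _ _ zero_le_one (by linarith)]
        congr 1; ring
      rw [h3]
      conv_lhs => rw [FF]
      rw [Finset.sum_mul]
      refine Finset.sum_congr rfl fun i _ => ?_
      by_cases hy : y ∈ cyl (1 / 2) δ (a i) (ω i : E (d + 1))
      · rw [indicator_of_mem hy, indicator_of_mem hy, Pi.one_apply, one_mul]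
        rfl
      · rw [indicator_of_notMem hy, indicator_of_notMem hy, zero_mul]
    rw [hX, lintegral_congr h2,
      lintegral_finsetSum _ fun i _ => hfm.indicator (cyl_meas _ _ _ _)]
    exact Finset.sum_congr rfl fun i _ => lintegral_indicator (cyl_meas _ _ _ _) _
  have h2 : ∀ i ∈ J, ∫⁻ y in cyl (1 / 2) δ (a i) (ω i : E (d + 1)), f y ≤
      ENNReal.ofReal (2 ^ d * δ ^ d) * kmax δ f (ω i) := by
    intro i _
    have hn : ‖(ω i : E (d + 1))‖ = 1 := norm_eq_of_mem_sphere (ω i)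
    set T := cyl (1 / 2) δ (a i) (ω i : E (d + 1)) with hT
    have hT1 : volume T ≤ ENNReal.ofReal (2 ^ d * δ ^ d) := by
      refine (vol_cyl_le (by norm_num) hδ.le hn).trans (le_of_eq ?_)
      congr 1
      rw [mul_pow]; ring
    have hT0 : volume T ≠ 0 := by
      have := vol_cyl_ge hδ (a := a i) hn
      have h3 : 0 < ENNReal.ofReal ((2 / ((d : ℝ) + 1)) ^ d * δ ^ d) :=
        ENNReal.ofReal_pos.2 (by positivity)
      exact (h3.trans_le this).ne'
    have hTt : volume T ≠ ⊤ := ne_top_of_le_ne_top ENNReal.ofReal_ne_top hT1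
    calc ∫⁻ y in T, f y = volume T * ((volume T)⁻¹ * ∫⁻ y in T, f y) := by
          rw [← mul_assoc, ENNReal.mul_inv_cancel hT0 hTt, one_mul]
      _ ≤ ENNReal.ofReal (2 ^ d * δ ^ d) * kmax δ f (ω i) := by
          gcongr
          exact le_iSup (fun b : E (d + 1) => (volume (cyl (1 / 2) δ b (ω i : E (d + 1))))⁻¹ *
            ∫⁻ y in cyl (1 / 2) δ b (ω i : E (d + 1)), f y) (a i)
  have h3 : X ≤ ENNReal.ofReal (2 ^ d * δ ^ d) * ∑ i ∈ J, kmax δ f (ω i) := by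
    rw [h1, Finset.mul_sum]
    exact Finset.sum_le_sum h2
  have h4 : X ^ p ≤ ENNReal.ofReal ((2 ^ d * δ ^ d) ^ p * (J.card : ℝ) ^ (p - 1) * ((δ ^ d)⁻¹ * K)) *
      X := by
    have hδd : 0 < δ ^ d := by positivity
    have h5 : ∑ i ∈ J, kmax δ f (ω i) ^ p ≤ ENNReal.ofReal ((δ ^ d)⁻¹ * K) * X := by
      have h6 : ∑ i ∈ J, kmax δ f (ω i) ^ p ≤ ∑ i, kmax δ f (ω i) ^ p :=
        Finset.sum_le_sum_of_subset (Finset.subset_univ J)
      calc ∑ i ∈ J, kmax δ f (ω i) ^ p ≤ ∑ i, kmax δ f (ω i) ^ p := h6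
        _ = ENNReal.ofReal ((δ ^ d)⁻¹) * (ENNReal.ofReal (δ ^ d) * ∑ i, kmax δ f (ω i) ^ p) := by
            rw [← mul_assoc, ← ENNReal.ofReal_mul (by positivity), inv_mul_cancel₀ hδd.ne',
              ENNReal.ofReal_one, one_mul]
        _ ≤ ENNReal.ofReal ((δ ^ d)⁻¹) * (ENNReal.ofReal K * X) := by gcongr
        _ = _ := by rw [← mul_assoc, ← ENNReal.ofReal_mul (by positivity)]
    calc X ^ p ≤ (ENNReal.ofReal (2 ^ d * δ ^ d) * ∑ i ∈ J, kmax δ f (ω i)) ^ p := by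
          gcongr
      _ = ENNReal.ofReal ((2 ^ d * δ ^ d) ^ p) * (∑ i ∈ J, kmax δ f (ω i)) ^ p := by
          rw [ENNReal.mul_rpow_of_nonneg _ _ (by linarith),
            ENNReal.ofReal_rpow_of_nonneg (by positivity) (by linarith)]
      _ ≤ ENNReal.ofReal ((2 ^ d * δ ^ d) ^ p) * ((J.card : ℝ≥0∞) ^ (p - 1) *
            ∑ i ∈ J, kmax δ f (ω i) ^ p) := by
          gcongr
          exact ENNReal.rpow_sum_le_const_mul_sum_rpow J (fun i => kmax δ f (ω i)) hp.le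
      _ ≤ ENNReal.ofReal ((2 ^ d * δ ^ d) ^ p) * (ENNReal.ofReal ((J.card : ℝ) ^ (p - 1)) *
            (ENNReal.ofReal ((δ ^ d)⁻¹ * K) * X)) := by
          have h7 : (J.card : ℝ≥0∞) ^ (p - 1) = ENNReal.ofReal ((J.card : ℝ) ^ (p - 1)) := by
            rw [← ENNReal.ofReal_natCast, ENNReal.ofReal_rpow_of_nonneg (by positivity) hp1.le]
          rw [h7]
          gcongr
      _ = _ := by
          rw [← mul_assoc, ← mul_assoc, ← ENNReal.ofReal_mul (by positivity),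
            ← ENNReal.ofReal_mul (by positivity)]
  -- real numbers
  have hx0 : 0 ≤ X.toReal := ENNReal.toReal_nonneg
  have hxe : X = ENNReal.ofReal X.toReal := (ENNReal.ofReal_toReal hXf).symm
  have hK' : 0 ≤ (2 ^ d * δ ^ d) ^ p * (J.card : ℝ) ^ (p - 1) * ((δ ^ d)⁻¹ * K) :=
    mul_nonneg (mul_nonneg (by positivity) (Real.rpow_nonneg (Nat.cast_nonneg _) _))
      (by positivity)
  rw [hxe]
  apply ENNReal.ofReal_le_ofReal
  rw [hxe, ENNReal.ofReal_rpow_of_nonneg hx0 (by linarith), ← ENNReal.ofReal_mul hK',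
    ENNReal.ofReal_le_ofReal_iff (mul_nonneg hK' hx0)] at h4
  exact real_end hδ hp hK (Nat.cast_nonneg _) hx0 h4

end Pool.Agent.N248.KT
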