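import Mathlib
import Pool.Agent.N248.KR.Kb
import Pool.Agent.N248.KR.Prob
import Pool.Agent.TH705.RR.Vol
set_option autoImplicit false

/-! Random tubes: few directions are crowded. -/

namespace Pool.Agent.N248.KT

open MeasureTheory Set Metric
open scoped ENNReal NNReal Pointwise
open Pool.Agent.N248.KR (E Dir Pu sg sg_ne net pi_cyl)
open Pool.Agent.TH705.RR (sn sn_nonneg sn_sq perp_norm diff_sq vb vb_pos Rod vol_rod)

/-- the distance to the multiples of `z` is the sine -/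
theorem sn_le_of {n : ℕ} {z e : E n} (hz : ‖z‖ = 1) (he : ‖e‖ = 1) (t : ℝ) :
    sn z e ≤ ‖e - t • z‖ := by
  have h := diff_sq hz he t 1
  have h1 : ‖e - t • z‖ ^ 2 = (1 - t * inner ℝ z e) ^ 2 + (t * sn z e) ^ 2 := by
    rw [← h, one_smul]
  have h2 : sn z e ^ 2 ≤ ‖e - t • z‖ ^ 2 := by
    rw [h1, mul_pow, sn_sq hz he]
    nlinarith [sq_nonneg (t - inner ℝ z e)]
  exact le_of_sq_le_sq h2 (norm_nonneg _)

/-- the directions near the line of `z` -/
def Gz {d : ℕ} (r : ℝ) (z : E (d + 1)) : Set (Dir (d + 1)) :=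
  {e | ‖(e : E (d + 1)) - (inner ℝ z (e : E (d + 1)) : ℝ) • z‖ ≤ 2 * r}

theorem Gz_meas {d : ℕ} (r : ℝ) (z : E (d + 1)) : MeasurableSet (Gz r z) := by
  have h2 : Continuous fun e : Dir (d + 1) =>
    ‖(e : E (d + 1)) - (inner ℝ z (e : E (d + 1)) : ℝ) • z‖ := by fun_prop
  exact (isClosed_le h2 continuous_const).measurableSet

theorem Gz_le (d : ℕ) : ∃ C : ℝ, 1 ≤ C ∧ ∀ r : ℝ, 0 < r → r < 1 → ∀ z : E (d + 1), ‖z‖ = 1 →
    Pu d (Gz r z) ≤ ENNReal.ofReal (C * r ^ d) := by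
  set s : ℝ := ((sg d univ)⁻¹).toReal with hs
  have hse : (sg d univ)⁻¹ = ENNReal.ofReal s := by
    rw [hs, ENNReal.ofReal_toReal (ENNReal.inv_ne_top.2 (sg_ne d).1)]
  have hs0 : 0 ≤ s := ENNReal.toReal_nonneg
  have hv := vb_pos (d + 1)
  refine ⟨s * ((d + 1) * (2 ^ (d + 1) * vb (d + 1) * 8 * 2 ^ d)) + 1, by
    have : 0 ≤ s * ((d + 1) * (2 ^ (d + 1) * vb (d + 1) * 8 * 2 ^ d)) := by positivity
    linarith, ?_⟩
  intro r hr hr1 z hz
  have h1 : sg d (Gz r z) ≤ ENNReal.ofReal ((d + 1) * (2 ^ (d + 1) * vb (d + 1) * 8 * 2 ^ d) * r ^ d) := by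
    rw [Measure.toSphere_apply' _ (Gz_meas r z), finrank_euclideanSpace, Fintype.card_fin]
    have hsub : Ioo (0 : ℝ) 1 • ((↑) '' (Gz r z)) ⊆ Rod (0 : E (d + 1)) z 1 (2 * r) := by
      rintro x ⟨t, ht, y, ⟨e, he, rfl⟩, rfl⟩
      have he1 : ‖(e : E (d + 1))‖ = 1 := norm_eq_of_mem_sphere e
      have ht1 : |t| ≤ 1 := by rw [abs_le]; constructor <;> linarith [ht.1, ht.2]
      refine ⟨t * inner ℝ z (e : E (d + 1)), ?_, ?_⟩
      · rw [abs_mul]
        have h3 := abs_real_inner_le_norm z (e : E (d + 1))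
        rw [hz, he1, one_mul] at h3
        calc |t| * |inner ℝ z (e : E (d + 1))| ≤ 1 * 1 := by gcongr
          _ = 1 := one_mul 1
      · have h4 : t • (e : E (d + 1)) - 0 - (t * inner ℝ z (e : E (d + 1))) • z =
            t • ((e : E (d + 1)) - (inner ℝ z (e : E (d + 1)) : ℝ) • z) := by
          rw [sub_zero, smul_sub, smul_smul]
        show ‖t • (e : E (d + 1)) - 0 - (t * inner ℝ z (e : E (d + 1))) • z‖ ≤ 2 * r
        rw [h4, norm_smul, Real.norm_eq_abs]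
        have h5 : ‖(e : E (d + 1)) - (inner ℝ z (e : E (d + 1)) : ℝ) • z‖ ≤ 2 * r := he
        calc |t| * ‖(e : E (d + 1)) - (inner ℝ z (e : E (d + 1)) : ℝ) • z‖ ≤ 1 * (2 * r) := by
              gcongr
          _ = 2 * r := one_mul _
    have h2 := (measure_mono hsub).trans (vol_rod (by omega : 1 ≤ d + 1) (0 : E (d + 1)) hz
      zero_le_one (by positivity : 0 < 2 * r))
    calc ((d + 1 : ℕ) : ℝ≥0∞) * volume (Ioo (0 : ℝ) 1 • (Subtype.val '' (Gz r z)))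
        ≤ ((d + 1 : ℕ) : ℝ≥0∞) * ENNReal.ofReal (2 ^ (d + 1) * vb (d + 1) *
            (2 * 1 + 3 * (2 * r)) * (2 * r) ^ (d + 1 - 1)) := by gcongr
      _ = ENNReal.ofReal ((d + 1) * (2 ^ (d + 1) * vb (d + 1) *
            (2 * 1 + 3 * (2 * r)) * (2 * r) ^ (d + 1 - 1))) := by
          rw [← ENNReal.ofReal_natCast, ← ENNReal.ofReal_mul (by positivity)]
          push_cast
          rfl
      _ ≤ _ := by
          apply ENNReal.ofReal_le_ofReal
          rw [Nat.add_sub_cancel, mul_pow]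
          have h6 : 2 * 1 + 3 * (2 * r) ≤ 8 := by linarith
          have h7 : 2 ^ (d + 1) * vb (d + 1) * (2 * 1 + 3 * (2 * r)) * (2 ^ d * r ^ d) ≤
              2 ^ (d + 1) * vb (d + 1) * 8 * (2 ^ d * r ^ d) := by gcongr
          have h8 : (0 : ℝ) ≤ (d : ℝ) + 1 := by positivity
          have h9 := mul_le_mul_of_nonneg_left h7 h8
          linarith
  rw [Measure.smul_apply, smul_eq_mul, hse]
  calc ENNReal.ofReal s * sg d (Gz r z) ≤ ENNReal.ofReal s *
        ENNReal.ofReal ((d + 1) * (2 ^ (d + 1) * vb (d + 1) * 8 * 2 ^ d) * r ^ d) := by gcongr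
    _ = ENNReal.ofReal (s * ((d + 1) * (2 ^ (d + 1) * vb (d + 1) * 8 * 2 ^ d) * r ^ d)) :=
        (ENNReal.ofReal_mul hs0).symm
    _ ≤ _ := by
        apply ENNReal.ofReal_le_ofReal
        have : 0 ≤ r ^ d := by positivity
        nlinarith

/-- few random points in a set -/
theorem few_pts {Ω₀ : Type*} [MeasurableSpace Ω₀] (P : Measure Ω₀) [IsProbabilityMeasure P] (M : ℕ)
    (G : Set Ω₀) (ρ : ℝ) (hρ : 0 ≤ ρ) (hG : P G ≤ ENNReal.ofReal ρ) (u : ℕ) :
    (Measure.pi fun _ : Fin M => P) {ω | ∃ T : Finset (Fin M), T.card = u ∧ ∀ j ∈ T, ω j ∈ G} ≤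
      ENNReal.ofReal ((M * ρ) ^ u) := by
  classical
  have h0 : ∀ j : Fin M, (Measure.pi fun _ : Fin M => P) {ω | ω j ∈ G} = P G := by
    intro j
    have := pi_cyl P M G {j}
    simpa only [Finset.mem_singleton, iInter_iInter_eq_left, Finset.card_singleton,
      pow_one] using this
  have h1 := RR.few (Measure.pi fun _ : Fin M => P) (fun j : Fin M => {ω : Fin M → Ω₀ | ω j ∈ G})
    (by
      intro T
      rw [pi_cyl]
      refine le_of_eq ?_
      rw [← Finset.prod_const]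
      exact Finset.prod_congr rfl fun j _ => (h0 j).symm) Finset.univ ρ M hρ (by simp) (by
      intro j _
      rw [h0]; exact hG) u
  refine (measure_mono ?_).trans (h1.trans (ENNReal.ofReal_le_ofReal ?_))
  · rintro ω ⟨T, hT, hω⟩
    exact ⟨T, Finset.subset_univ _, hT, fun j hj => hω j hj⟩
  · refine div_le_self (by positivity) ?_
    exact_mod_cast Nat.succ_le_iff.2 (Nat.factorial_pos u)

/-- from a net to all directions -/
theorem crowd_of (d : ℕ) : ∃ C : ℝ, 1 ≤ C ∧ ∀ r : ℝ, 0 < r → r < 1 → ∀ (M u : ℕ) (β : ℝ), 0 ≤ β →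
    (∀ z : E (d + 1), ‖z‖ = 1 → (Measure.pi fun _ : Fin M => Pu d)
      {ω | ∃ T : Finset (Fin M), T.card = u ∧ ∀ j ∈ T, ω j ∈ Gz r z} ≤ ENNReal.ofReal β) →
    (Measure.pi fun _ : Fin M => Pu d) {ω | ∃ i, ∃ T : Finset (Fin M), T.card = u ∧
      ∀ j ∈ T, sn (ω i : E (d + 1)) (ω j : E (d + 1)) ≤ r} ≤
      ENNReal.ofReal ((C / r) ^ (d + 1) * β) := by
  obtain ⟨C1, hC1, hN⟩ := net (d + 1) 1 le_rfl
  refine ⟨C1, hC1, ?_⟩
  intro r hr hr1 M u β hβ h1
  obtain ⟨N, hNs, hNc, hN⟩ := hN (sphere (0 : E (d + 1)) 1) (fun x hx => by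
    rw [mem_sphere, dist_zero_right] at hx; exact hx.le) r hr hr1
  have hNn : ∀ z ∈ N, ‖z‖ = 1 := fun z hz => by
    have := hNs z hz
    rwa [mem_sphere, dist_zero_right] at this
  have hsub : {ω : Fin M → Dir (d + 1) | ∃ i, ∃ T : Finset (Fin M), T.card = u ∧
      ∀ j ∈ T, sn (ω i : E (d + 1)) (ω j : E (d + 1)) ≤ r} ⊆
      ⋃ z ∈ N, {ω | ∃ T : Finset (Fin M), T.card = u ∧ ∀ j ∈ T, ω j ∈ Gz r z} := by
    rintro ω ⟨i, T, hT, hω⟩
    obtain ⟨z, hz, hzi⟩ := hN (ω i : E (d + 1)) (ω i).2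
    simp only [mem_iUnion]
    refine ⟨z, hz, T, hT, fun j hj => ?_⟩
    have hi1 : ‖(ω i : E (d + 1))‖ = 1 := norm_eq_of_mem_sphere _
    have hj1 : ‖(ω j : E (d + 1))‖ = 1 := norm_eq_of_mem_sphere _
    have hz1 := hNn z hz
    show ‖(ω j : E (d + 1)) - (inner ℝ z (ω j : E (d + 1)) : ℝ) • z‖ ≤ 2 * r
    rw [perp_norm hz1 hj1]
    set c : ℝ := inner ℝ (ω i : E (d + 1)) (ω j : E (d + 1)) with hc
    refine (sn_le_of hz1 hj1 c).trans ?_
    have h1 : (ω j : E (d + 1)) - c • z = ((ω j : E (d + 1)) - c • (ω i : E (d + 1))) +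
        c • ((ω i : E (d + 1)) - z) := by
      rw [smul_sub]; abel
    rw [h1]
    have h2 : ‖(ω j : E (d + 1)) - c • (ω i : E (d + 1))‖ ≤ r := by
      rw [hc, perp_norm hi1 hj1]; exact hω j hj
    have h3 : |c| ≤ 1 := by
      have := abs_real_inner_le_norm (ω i : E (d + 1)) (ω j : E (d + 1))
      rwa [hi1, hj1, one_mul] at this
    calc _ ≤ ‖(ω j : E (d + 1)) - c • (ω i : E (d + 1))‖ + ‖c • ((ω i : E (d + 1)) - z)‖ :=
          norm_add_le _ _
      _ ≤ r + 1 * r := by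
          rw [norm_smul, Real.norm_eq_abs]
          gcongr
      _ = 2 * r := by ring
  refine (measure_mono hsub).trans ((measure_biUnion_finset_le _ _).trans ?_)
  refine (Finset.sum_le_sum fun z hz => h1 z (hNn z hz)).trans ?_
  rw [Finset.sum_const, nsmul_eq_mul, ← ENNReal.ofReal_natCast,
    ← ENNReal.ofReal_mul (by positivity)]
  apply ENNReal.ofReal_le_ofReal
  gcongr

/-- **few directions are crowded** -/
theorem crowd (d : ℕ) : ∃ C : ℝ, 1 ≤ C ∧ ∀ r : ℝ, 0 < r → r < 1 → ∀ M u : ℕ,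
    (Measure.pi fun _ : Fin M => Pu d) {ω | ∃ i, ∃ T : Finset (Fin M), T.card = u ∧
      ∀ j ∈ T, sn (ω i : E (d + 1)) (ω j : E (d + 1)) ≤ r} ≤
      ENNReal.ofReal ((C / r) ^ (d + 1) * (C * M * r ^ d) ^ u) := by
  obtain ⟨C1, hC1, h1⟩ := crowd_of d
  obtain ⟨C2, hC2, hG⟩ := Gz_le d
  refine ⟨max C1 C2, le_max_of_le_left hC1, ?_⟩
  intro r hr hr1 M u
  refine (h1 r hr hr1 M u ((M * (C2 * r ^ d)) ^ u) (by positivity) fun z hz =>
    few_pts (Pu d) M (Gz r z) (C2 * r ^ d) (by positivity) (hG r hr hr1 z hz) u).trans ?_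
  apply ENNReal.ofReal_le_ofReal
  have h2 : C1 ≤ max C1 C2 := le_max_left _ _
  have h3 : C2 ≤ max C1 C2 := le_max_right _ _
  have h4 : 0 < C1 := by linarith
  calc (C1 / r) ^ (d + 1) * (M * (C2 * r ^ d)) ^ u
      ≤ (max C1 C2 / r) ^ (d + 1) * (M * (max C1 C2 * r ^ d)) ^ u := by gcongr
    _ = _ := by
        congr 2
        ring

/-- **few directions are very crowded** -/
theorem crowd_many (d : ℕ) : ∃ C : ℝ, 1 ≤ C ∧ ∀ r : ℝ, 0 < r → r < 1 → ∀ M u : ℕ,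
    C * (M * r ^ d) ≤ u →
    (Measure.pi fun _ : Fin M => Pu d) {ω | ∃ i, ∃ T : Finset (Fin M), T.card = u ∧
      ∀ j ∈ T, sn (ω i : E (d + 1)) (ω j : E (d + 1)) ≤ r} ≤
      ENNReal.ofReal ((C / r) ^ (d + 1) * Real.exp (-u)) := by
  obtain ⟨C1, hC1, h1⟩ := crowd_of d
  obtain ⟨C2, hC2, hG⟩ := Gz_le d
  have he : 1 ≤ Real.exp 2 := Real.one_le_exp (by norm_num)
  refine ⟨max C1 (Real.exp 2 * C2), le_max_of_le_left hC1, ?_⟩
  intro r hr hr1 M u hu
  refine (h1 r hr hr1 M u (Real.exp (-u)) (by positivity) fun z hz =>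
    Pool.Agent.N248.KR.many_points (Pu d) M (Gz r z) u ?_).trans ?_
  · have h2 : (Pu d (Gz r z)).toReal ≤ C2 * r ^ d :=
      ENNReal.toReal_le_of_le_ofReal (by positivity) (hG r hr hr1 z hz)
    refine le_trans ?_ hu
    calc Real.exp 2 * (M * (Pu d (Gz r z)).toReal) ≤ Real.exp 2 * (M * (C2 * r ^ d)) := by gcongr
      _ = (Real.exp 2 * C2) * (M * r ^ d) := by ring
      _ ≤ _ := by
          gcongr
          exact le_max_right _ _
  · apply ENNReal.ofReal_le_ofReal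
    have h4 : 0 < C1 := by linarith
    gcongr
    exact le_max_left _ _

open scoped Classical in
/-- the counting hypothesis at all scales -/
def Sc {d M : ℕ} (K : ℕ) (A δ : ℝ) (ω : Fin M → Dir (d + 1)) : Prop :=
  ∀ k : ℕ, k ≤ K → ∀ i, ((Finset.univ.filter fun j =>
    sn (ω i : E (d + 1)) (ω j : E (d + 1)) ≤ δ ^ ((k : ℝ) / K)).card : ℝ) ≤
      A * δ ^ (-(1 / (K : ℝ))) * (1 + M * (δ ^ ((k : ℝ) / K)) ^ d)

/-- all scales are good with high probability -/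
theorem Sc_prob (d : ℕ) {K : ℕ} (hK : 1 ≤ K) {B : ℝ} (hB : 0 < B) : ∃ A : ℝ, 1 ≤ A ∧
    ∀ δ : ℝ, 0 < δ → δ < 1 → ∀ M : ℕ,
      (Measure.pi fun _ : Fin M => Pu d) {ω | ¬ Sc K A δ ω} ≤ ENNReal.ofReal (A * δ ^ B) := by
  classical
  obtain ⟨C, hC, h⟩ := crowd_many d
  have hC0 : 0 < C := by linarith
  have hKr : (1 : ℝ) ≤ K := by exact_mod_cast hK
  have hK0 : (0 : ℝ) < K := by linarith
  set k1 : ℕ := ⌈(B + (d + 1)) * K⌉₊ with hk1
  have hk1' : (B + (d + 1)) ≤ 1 / (K : ℝ) * k1 := by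
    rw [div_mul_eq_mul_div, one_mul, le_div_iff₀ hK0]
    exact Nat.le_ceil _
  refine ⟨max C (K * (C ^ (d + 1) * k1.factorial)), le_max_of_le_left hC, ?_⟩
  intro δ hδ hδ1 M
  set A : ℝ := max C (K * (C ^ (d + 1) * k1.factorial)) with hA
  have hAC : C ≤ A := le_max_left _ _
  set y : ℝ := δ ^ (-(1 / (K : ℝ))) with hy
  have hy1 : 1 ≤ y := Real.one_le_rpow_of_pos_of_le_one_of_nonpos hδ hδ1.le
    (by rw [neg_nonpos]; positivity)
  set U : ℕ → ℕ := fun k => ⌈C * y * (1 + M * (δ ^ ((k : ℝ) / K)) ^ d)⌉₊ with hU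
  have hsub : {ω : Fin M → Dir (d + 1) | ¬ Sc K A δ ω} ⊆ ⋃ k ∈ Finset.Icc 1 K,
      {ω | ∃ i, ∃ T : Finset (Fin M), T.card = U k ∧
        ∀ j ∈ T, sn (ω i : E (d + 1)) (ω j : E (d + 1)) ≤ δ ^ ((k : ℝ) / K)} := by
    intro ω hω
    simp only [Sc, mem_setOf_eq, not_forall, not_le] at hω
    obtain ⟨k, hk, i, hki⟩ := hω
    have hk1 : 1 ≤ k := by
      rcases Nat.eq_zero_or_pos k with h0 | h0
      · exfalso
        subst h0
        have h2 : ((Finset.univ.filter fun j => sn (ω i : E (d + 1)) (ω j : E (d + 1)) ≤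
            δ ^ (((0 : ℕ) : ℝ) / K)).card : ℝ) ≤ M := by
          have := (Finset.card_filter_le (Finset.univ : Finset (Fin M)) fun j =>
            sn (ω i : E (d + 1)) (ω j : E (d + 1)) ≤ δ ^ (((0 : ℕ) : ℝ) / K))
          rw [Finset.card_univ, Fintype.card_fin] at this
          exact_mod_cast this
        have h3 : (1 : ℝ) * (0 + M) ≤ A * y * (1 + M * (δ ^ (((0 : ℕ) : ℝ) / K)) ^ d) := by
          have h4 : (δ ^ (((0 : ℕ) : ℝ) / K)) ^ d = 1 := by simp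
          rw [h4, mul_one]
          have h5 : 1 ≤ A * y := one_le_mul_of_one_le_of_one_le (hC.trans hAC) hy1
          have hM : (0 : ℝ) ≤ M := Nat.cast_nonneg _
          nlinarith
        linarith
      · exact h0
    simp only [mem_iUnion]
    refine ⟨k, Finset.mem_Icc.2 ⟨hk1, hk⟩, i, ?_⟩
    have h2 : U k ≤ (Finset.univ.filter fun j => sn (ω i : E (d + 1)) (ω j : E (d + 1)) ≤
        δ ^ ((k : ℝ) / K)).card := by
      rw [hU]
      refine Nat.ceil_le.2 (le_trans ?_ hki.le)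
      gcongr
    obtain ⟨T, hT, hTc⟩ := Finset.exists_subset_card_eq h2
    exact ⟨T, hTc, fun j hj => (Finset.mem_filter.1 (hT hj)).2⟩
  refine (measure_mono hsub).trans ((measure_biUnion_finset_le _ _).trans ?_)
  have h1 : ∀ k ∈ Finset.Icc 1 K, (Measure.pi fun _ : Fin M => Pu d)
      {ω | ∃ i, ∃ T : Finset (Fin M), T.card = U k ∧
        ∀ j ∈ T, sn (ω i : E (d + 1)) (ω j : E (d + 1)) ≤ δ ^ ((k : ℝ) / K)} ≤
      ENNReal.ofReal (C ^ (d + 1) * k1.factorial * δ ^ B) := by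
    intro k hk
    rw [Finset.mem_Icc] at hk
    have hk0 : (1 : ℝ) ≤ k := by exact_mod_cast hk.1
    have hkK : (k : ℝ) ≤ K := by exact_mod_cast hk.2
    have hr0 : 0 < δ ^ ((k : ℝ) / K) := by positivity
    have hr1 : δ ^ ((k : ℝ) / K) < 1 := Real.rpow_lt_one hδ.le hδ1 (by positivity)
    have hrδ : δ ≤ δ ^ ((k : ℝ) / K) := by
      calc δ = δ ^ (1 : ℝ) := (Real.rpow_one δ).symm
        _ ≤ _ := Real.rpow_le_rpow_of_exponent_ge hδ hδ1.le (by rw [div_le_one hK0]; exact hkK)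
    have hUk : C * y * (1 + M * (δ ^ ((k : ℝ) / K)) ^ d) ≤ U k := Nat.le_ceil _
    have hM0 : (0 : ℝ) ≤ M * (δ ^ ((k : ℝ) / K)) ^ d := by positivity
    have hCy : C ≤ C * y := le_mul_of_one_le_right hC0.le hy1
    have h2 : C * (M * (δ ^ ((k : ℝ) / K)) ^ d) ≤ U k := by
      refine le_trans ?_ hUk
      calc C * (M * (δ ^ ((k : ℝ) / K)) ^ d) ≤ (C * y) * (M * (δ ^ ((k : ℝ) / K)) ^ d) := by gcongr
        _ ≤ (C * y) * (1 + M * (δ ^ ((k : ℝ) / K)) ^ d) := by gcongr; linarith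
    refine (h _ hr0 hr1 M (U k) h2).trans (ENNReal.ofReal_le_ofReal ?_)
    have h3 : y ≤ U k := by
      refine le_trans ?_ hUk
      calc y = 1 * y * (1 + 0) := by ring
        _ ≤ C * y * (1 + M * (δ ^ ((k : ℝ) / K)) ^ d) := by gcongr
    have h4 : Real.exp (-(U k : ℝ)) ≤ k1.factorial * δ ^ (B + (d + 1)) := by
      have h5 : y ^ k1 / k1.factorial ≤ Real.exp y :=
        Real.pow_div_factorial_le_exp y (by linarith) k1
      have h6 : Real.exp (-(U k : ℝ)) ≤ Real.exp (-y) := Real.exp_le_exp.2 (by linarith)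
      refine h6.trans ?_
      rw [Real.exp_neg]
      have hf0 : (0 : ℝ) < k1.factorial := by exact_mod_cast Nat.factorial_pos k1
      have hyk : 0 < y ^ k1 := by positivity
      calc (Real.exp y)⁻¹ ≤ (y ^ k1 / k1.factorial)⁻¹ := by gcongr
        _ = k1.factorial * (y ^ k1)⁻¹ := by rw [inv_div, div_eq_mul_inv]
        _ ≤ k1.factorial * δ ^ (B + (d + 1)) := by
            gcongr
            rw [hy, ← Real.rpow_natCast, ← Real.rpow_mul hδ.le, ← Real.rpow_neg hδ.le]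
            refine Real.rpow_le_rpow_of_exponent_ge hδ hδ1.le ?_
            linarith
    calc (C / δ ^ ((k : ℝ) / K)) ^ (d + 1) * Real.exp (-(U k : ℝ))
        ≤ (C / δ) ^ (d + 1) * (k1.factorial * δ ^ (B + (d + 1))) := by gcongr
      _ = C ^ (d + 1) * k1.factorial * (δ ^ (B + (d + 1)) / δ ^ (d + 1)) := by
          rw [div_pow]; ring
      _ = C ^ (d + 1) * k1.factorial * δ ^ B := by
          congr 1
          have h7 : (δ ^ (d + 1) : ℝ) = δ ^ ((d : ℝ) + 1) := by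
            rw [← Real.rpow_natCast]; push_cast; rfl
          rw [h7, ← Real.rpow_sub hδ]
          congr 1; ring
  refine (Finset.sum_le_sum h1).trans ?_
  rw [Finset.sum_const, nsmul_eq_mul, Nat.card_Icc, Nat.add_sub_cancel, ← ENNReal.ofReal_natCast,
    ← ENNReal.ofReal_mul (by positivity)]
  apply ENNReal.ofReal_le_ofReal
  have h8 : K * (C ^ (d + 1) * k1.factorial) ≤ A := le_max_right _ _
  have h9 : 0 ≤ δ ^ B := by positivity
  calc (K : ℝ) * (C ^ (d + 1) * k1.factorial * δ ^ B) =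
        K * (C ^ (d + 1) * k1.factorial) * δ ^ B := by ring
    _ ≤ A * δ ^ B := by gcongr

end Pool.Agent.N248.KT
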