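import Mathlib
import Pool.Agent.N248.KT.Crowd
import Pool.Agent.N248.KT.Dual
import Pool.Agent.Y254.Geo
set_option autoImplicit false

/-! Random tubes: the `L²` estimates. -/

namespace Pool.Agent.N248.KT

open MeasureTheory Set Metric
open scoped ENNReal NNReal
open Pool.Agent.N248.KR (E Dir Good cyl cyl_meas kmax vol_cyl_le vol_cyl_ge)
open Pool.Agent.TH705.RR (sn sn_nonneg sn_le_one)
open Pool.Agent.Y254 (Cv Cv_pos vol_inter)

variable {d M : ℕ}

/-- the constant -/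
noncomputable def C0 (d : ℕ) : ℝ := 2 ^ d + 6 * Cv (d + 1)

theorem C0_pos (d : ℕ) : 0 < C0 d := by
  have := Cv_pos (d + 1)
  unfold C0
  positivity

/-- two tubes -/
theorem vol_two {δ : ℝ} (hδ : 0 < δ) (e e' : Dir (d + 1)) (a a' : E (d + 1)) :
    volume (cyl (1 / 2) δ a (e : E (d + 1)) ∩ cyl (1 / 2) δ a' (e' : E (d + 1))) ≤
      ENNReal.ofReal (C0 d * δ ^ (d + 1) * (max δ (sn (e : E (d + 1)) (e' : E (d + 1))))⁻¹) := by
  have hC := Cv_pos (d + 1)
  have he : ‖(e : E (d + 1))‖ = 1 := norm_eq_of_mem_sphere _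
  have he' : ‖(e' : E (d + 1))‖ = 1 := norm_eq_of_mem_sphere _
  rcases le_or_gt (sn (e : E (d + 1)) (e' : E (d + 1))) δ with h | h
  · rw [max_eq_left h]
    refine (measure_mono inter_subset_left).trans
      ((vol_cyl_le (by norm_num) hδ.le he).trans (ENNReal.ofReal_le_ofReal ?_))
    have h1 : C0 d * δ ^ (d + 1) * δ⁻¹ = C0 d * δ ^ d := by
      rw [pow_succ]; field_simp
    rw [h1, mul_pow]
    have h2 : 0 < δ ^ d := by positivity
    unfold C0
    nlinarith [mul_pos hC h2]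
  · rw [max_eq_right h.le]
    have hs : 0 < sn (e : E (d + 1)) (e' : E (d + 1)) := hδ.trans h
    refine (vol_inter (by omega : 1 ≤ d + 1) hδ he he' hs).trans (ENNReal.ofReal_le_ofReal ?_)
    rw [Nat.add_sub_cancel]
    have h1 : Cv (d + 1) * (6 * δ / sn (e : E (d + 1)) (e' : E (d + 1))) * δ ^ d =
        6 * Cv (d + 1) * (δ ^ (d + 1) * (sn (e : E (d + 1)) (e' : E (d + 1)))⁻¹) := by
      rw [pow_succ]; field_simp
    rw [h1]
    have h2 : 0 < δ ^ (d + 1) * (sn (e : E (d + 1)) (e' : E (d + 1)))⁻¹ := by positivity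
    unfold C0
    have h3 : (0 : ℝ) < 2 ^ d := by positivity
    nlinarith [mul_pos h3 h2]

theorem sq_eq (δ : ℝ) (ω : Fin M → Dir (d + 1)) (a : Fin M → E (d + 1)) (J : Finset (Fin M)) :
    ∫⁻ y, FF δ ω a J y ^ (2 : ℝ) = ∑ i ∈ J, ∑ j ∈ J,
      volume (cyl (1 / 2) δ (a i) (ω i : E (d + 1)) ∩ cyl (1 / 2) δ (a j) (ω j : E (d + 1))) := by
  have h1 : ∀ y, FF δ ω a J y ^ (2 : ℝ) = ∑ i ∈ J, ∑ j ∈ J,
      (cyl (1 / 2) δ (a i) (ω i : E (d + 1)) ∩
        cyl (1 / 2) δ (a j) (ω j : E (d + 1))).indicator (1 : E (d + 1) → ℝ≥0∞) y := by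
    intro y
    rw [ENNReal.rpow_two, sq]
    unfold FF
    rw [Finset.sum_mul_sum]
    refine Finset.sum_congr rfl fun i _ => Finset.sum_congr rfl fun j _ => ?_
    rw [Set.inter_indicator_one]
    rfl
  rw [lintegral_congr h1, lintegral_finsetSum]
  · refine Finset.sum_congr rfl fun i _ => ?_
    rw [lintegral_finsetSum]
    · refine Finset.sum_congr rfl fun j _ => ?_
      exact lintegral_indicator_one ((cyl_meas _ _ _ _).inter (cyl_meas _ _ _ _))
    · exact fun j _ => measurable_one.indicator ((cyl_meas _ _ _ _).inter (cyl_meas _ _ _ _))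
  · exact fun i _ => Finset.measurable_fun_sum _ fun j _ =>
      measurable_one.indicator ((cyl_meas _ _ _ _).inter (cyl_meas _ _ _ _))

/-- from sums over pairs to the `L²` norm -/
theorem sq_le {δ X : ℝ} (hδ : 0 < δ) (ω : Fin M → Dir (d + 1)) (a : Fin M → E (d + 1))
    (J : Finset (Fin M)) (hX : ∀ i ∈ J, ∑ j ∈ J,
      (max δ (sn (ω i : E (d + 1)) (ω j : E (d + 1))))⁻¹ ≤ X) :
    ∫⁻ y, FF δ ω a J y ^ (2 : ℝ) ≤ ENNReal.ofReal (J.card * (C0 d * δ ^ (d + 1) * X)) := by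
  rw [sq_eq]
  have hC := C0_pos d
  have h1 : ∀ i ∈ J, ∑ j ∈ J, volume (cyl (1 / 2) δ (a i) (ω i : E (d + 1)) ∩
      cyl (1 / 2) δ (a j) (ω j : E (d + 1))) ≤ ENNReal.ofReal (C0 d * δ ^ (d + 1) * X) := by
    intro i hi
    refine (Finset.sum_le_sum fun j _ => vol_two hδ (ω i) (ω j) (a i) (a j)).trans ?_
    rw [← ENNReal.ofReal_sum_of_nonneg (fun j _ => by positivity), ← Finset.mul_sum]
    apply ENNReal.ofReal_le_ofReal
    exact mul_le_mul_of_nonneg_left (hX i hi) (by positivity)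
  refine (Finset.sum_le_sum h1).trans ?_
  rw [Finset.sum_const, nsmul_eq_mul, ← ENNReal.ofReal_natCast,
    ← ENNReal.ofReal_mul (Nat.cast_nonneg _)]

open scoped Classical in
/-- **small families** -/
theorem two_small {δ r : ℝ} (hδ : 0 < δ) (hδr : δ ≤ r) {u : ℕ} (ω : Fin M → Dir (d + 1))
    (hu : ∀ i, (Finset.univ.filter fun j =>
      sn (ω i : E (d + 1)) (ω j : E (d + 1)) ≤ r).card ≤ u) (a : Fin M → E (d + 1))
    (J : Finset (Fin M)) (hJ : (J.card : ℝ) * δ ≤ r) :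
    ∫⁻ y, FF δ ω a J y ^ (2 : ℝ) ≤ ENNReal.ofReal (C0 d * (u + 1) * δ ^ d * J.card) := by
  have hC := C0_pos d
  have hr : 0 < r := by linarith
  refine (sq_le (X := (u + 1) * δ⁻¹) hδ ω a J ?_).trans (ENNReal.ofReal_le_ofReal ?_)
  · intro i _
    have h1 : ∀ j ∈ J, (max δ (sn (ω i : E (d + 1)) (ω j : E (d + 1))))⁻¹ ≤
        (if sn (ω i : E (d + 1)) (ω j : E (d + 1)) ≤ r then δ⁻¹ else 0) + r⁻¹ := by
      intro j _
      split_ifs with h
      · have h2 : (max δ (sn (ω i : E (d + 1)) (ω j : E (d + 1))))⁻¹ ≤ δ⁻¹ := by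
          gcongr
          exact le_max_left _ _
        have h3 : 0 < r⁻¹ := by positivity
        linarith
      · rw [zero_add]
        gcongr
        exact (not_le.1 h).le.trans (le_max_right _ _)
    refine (Finset.sum_le_sum h1).trans ?_
    rw [Finset.sum_add_distrib, Finset.sum_const, nsmul_eq_mul, ← Finset.sum_filter,
      Finset.sum_const, nsmul_eq_mul]
    have h4 : ((J.filter fun j => sn (ω i : E (d + 1)) (ω j : E (d + 1)) ≤ r).card : ℝ) ≤ u := by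
      have := (Finset.card_le_card (Finset.filter_subset_filter
        (fun j => sn (ω i : E (d + 1)) (ω j : E (d + 1)) ≤ r) (Finset.subset_univ J))).trans (hu i)
      exact_mod_cast this
    have h5 : (J.card : ℝ) * r⁻¹ ≤ δ⁻¹ := by
      rw [← div_eq_mul_inv, div_le_iff₀ hr, inv_mul_eq_div, le_div_iff₀ hδ]
      exact hJ
    have h6 : 0 < δ⁻¹ := by positivity
    nlinarith
  · refine le_of_eq ?_
    rw [pow_succ]
    field_simp

/-- the sum over the scales -/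
theorem scales {δ s : ℝ} (hδ : 0 < δ) (hδ1 : δ < 1) {K : ℕ} (hK : 1 ≤ K) (hs1 : s ≤ 1) :
    (max δ s)⁻¹ ≤ ∑ k ∈ Finset.range (K + 1),
      if s ≤ δ ^ ((k : ℝ) / K) then δ ^ (-(1 / (K : ℝ))) * (δ ^ ((k : ℝ) / K))⁻¹ else 0 := by
  classical
  have hKr : (1 : ℝ) ≤ K := by exact_mod_cast hK
  have hK0 : (0 : ℝ) < K := by linarith
  set S : Finset ℕ := (Finset.range (K + 1)).filter fun k => s ≤ δ ^ ((k : ℝ) / K) with hS
  have h0 : 0 ∈ S := by
    rw [hS, Finset.mem_filter]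
    refine ⟨Finset.mem_range.2 (by omega), ?_⟩
    simpa using hs1
  have hne : S.Nonempty := ⟨0, h0⟩
  set k := S.max' hne with hk
  have hkS : k ∈ S := Finset.max'_mem S hne
  have hk2 := Finset.mem_filter.1 hkS
  have hkK : k ≤ K := by have := Finset.mem_range.1 hk2.1; omega
  have hterm : (max δ s)⁻¹ ≤ δ ^ (-(1 / (K : ℝ))) * (δ ^ ((k : ℝ) / K))⁻¹ := by
    rcases hkK.eq_or_lt with h1 | h1
    · have h2 : ((k : ℝ) / K) = 1 := by rw [h1]; exact div_self hK0.ne'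
      rw [h2, Real.rpow_one]
      have h3 : 1 ≤ δ ^ (-(1 / (K : ℝ))) := Real.one_le_rpow_of_pos_of_le_one_of_nonpos hδ hδ1.le
        (by rw [neg_nonpos]; positivity)
      calc (max δ s)⁻¹ ≤ δ⁻¹ := by
            gcongr
            exact le_max_left _ _
        _ = 1 * δ⁻¹ := (one_mul _).symm
        _ ≤ _ := by gcongr
    · have h2 : k + 1 ∉ S := fun h => by
        have := Finset.le_max' S (k + 1) h
        omega
      have h3 : ¬ s ≤ δ ^ (((k + 1 : ℕ) : ℝ) / K) := fun h => h2 (by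
        rw [hS, Finset.mem_filter]
        exact ⟨Finset.mem_range.2 (by omega), h⟩)
      rw [not_le] at h3
      have h4 : δ ^ (((k + 1 : ℕ) : ℝ) / K) = δ ^ ((k : ℝ) / K) * δ ^ (1 / (K : ℝ)) := by
        rw [← Real.rpow_add hδ]
        congr 1
        push_cast
        ring
      rw [h4] at h3
      have h5 : 0 < δ ^ ((k : ℝ) / K) * δ ^ (1 / (K : ℝ)) := by positivity
      calc (max δ s)⁻¹ ≤ (δ ^ ((k : ℝ) / K) * δ ^ (1 / (K : ℝ)))⁻¹ := by
            gcongr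
            exact h3.le.trans (le_max_right _ _)
        _ = _ := by
            rw [mul_inv, Real.rpow_neg hδ.le]
            ring
  refine hterm.trans ?_
  have h6 := Finset.single_le_sum (f := fun k : ℕ =>
    if s ≤ δ ^ ((k : ℝ) / K) then δ ^ (-(1 / (K : ℝ))) * (δ ^ ((k : ℝ) / K))⁻¹ else 0)
    (s := Finset.range (K + 1)) (fun k _ => by
      split_ifs
      · positivity
      · exact le_rfl) hk2.1
  simp only [if_pos hk2.2] at h6
  exact h6

theorem min_le_geom {x y : ℝ} (hx : 0 ≤ x) (hy : 0 ≤ y) {z : ℝ} (hz : 0 ≤ z) (hzx : z ≤ x)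
    (hzy : z ≤ y) {t : ℝ} (ht0 : 0 ≤ t) (ht1 : t ≤ 1) : z ≤ x ^ (1 - t) * y ^ t := by
  rcases hz.eq_or_lt with h | h
  · rw [← h]; positivity
  calc z = z ^ (1 - t) * z ^ t := by
        rw [← Real.rpow_add h, sub_add_cancel, Real.rpow_one]
    _ ≤ x ^ (1 - t) * y ^ t := by gcongr

open scoped Classical in
/-- **all families** -/
theorem two_all (hd : 1 ≤ d) {δ A : ℝ} (hδ : 0 < δ) (hδ1 : δ < 1) {K : ℕ} (hK : 1 ≤ K) (hA : 1 ≤ A)
    (ω : Fin M → Dir (d + 1)) (hS : Sc K A δ ω) (a : Fin M → E (d + 1)) (J : Finset (Fin M)) :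
    ∫⁻ y, FF δ ω a J y ^ (2 : ℝ) ≤ ENNReal.ofReal (C0 d * ((K + 1) * A) * δ ^ (-(2 / (K : ℝ))) *
      δ ^ d * (J.card * (1 + (J.card : ℝ) ^ (1 - 1 / (d : ℝ)) * (δ * (M : ℝ) ^ (1 / (d : ℝ)))))) := by
  have hC := C0_pos d
  have hd0 : (0 : ℝ) < d := by exact_mod_cast hd
  have hd1 : (1 : ℝ) ≤ d := by exact_mod_cast hd
  have hKr : (1 : ℝ) ≤ K := by exact_mod_cast hK
  have hK0 : (0 : ℝ) < K := by linarith
  set y : ℝ := δ ^ (-(1 / (K : ℝ))) with hy
  have hy1 : 1 ≤ y := Real.one_le_rpow_of_pos_of_le_one_of_nonpos hδ hδ1.le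
    (by rw [neg_nonpos]; positivity)
  have hAy : 1 ≤ A * y := one_le_mul_of_one_le_of_one_le hA hy1
  set m : ℝ := (J.card : ℝ) with hm
  have hm0 : 0 ≤ m := Nat.cast_nonneg _
  set X : ℝ := (K + 1) * (y * (A * y)) * (δ⁻¹ + m ^ (1 - 1 / (d : ℝ)) * (M : ℝ) ^ (1 / (d : ℝ)))
    with hX
  refine (sq_le (X := X) hδ ω a J ?_).trans (ENNReal.ofReal_le_ofReal ?_)
  · intro i _
    have h1 : ∀ j ∈ J, (max δ (sn (ω i : E (d + 1)) (ω j : E (d + 1))))⁻¹ ≤
        ∑ k ∈ Finset.range (K + 1), if sn (ω i : E (d + 1)) (ω j : E (d + 1)) ≤ δ ^ ((k : ℝ) / K)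
          then y * (δ ^ ((k : ℝ) / K))⁻¹ else 0 := fun j _ =>
      scales hδ hδ1 hK (sn_le_one _ _)
    refine (Finset.sum_le_sum h1).trans ?_
    rw [Finset.sum_comm]
    have h2 : ∀ k ∈ Finset.range (K + 1), (∑ j ∈ J, if sn (ω i : E (d + 1)) (ω j : E (d + 1)) ≤
        δ ^ ((k : ℝ) / K) then y * (δ ^ ((k : ℝ) / K))⁻¹ else 0) ≤
        (y * (A * y)) * (δ⁻¹ + m ^ (1 - 1 / (d : ℝ)) * (M : ℝ) ^ (1 / (d : ℝ))) := by
      intro k hk
      have hkK : k ≤ K := by have := Finset.mem_range.1 hk; omega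
      have hkr : (k : ℝ) ≤ K := by exact_mod_cast hkK
      set ρ : ℝ := δ ^ ((k : ℝ) / K) with hρ
      have hρ0 : 0 < ρ := by positivity
      have hρδ : δ ≤ ρ := by
        calc δ = δ ^ (1 : ℝ) := (Real.rpow_one δ).symm
          _ ≤ _ := Real.rpow_le_rpow_of_exponent_ge hδ hδ1.le (by rw [div_le_one hK0]; exact hkr)
      rw [← Finset.sum_filter, Finset.sum_const, nsmul_eq_mul]
      set N : ℝ := ((J.filter fun j => sn (ω i : E (d + 1)) (ω j : E (d + 1)) ≤ ρ).card : ℝ)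
        with hN
      have hN0 : 0 ≤ N := Nat.cast_nonneg _
      have hNm : N ≤ m := by
        rw [hN, hm]
        exact_mod_cast Finset.card_filter_le _ _
      have hNS : N ≤ A * y * (1 + M * ρ ^ d) := by
        refine le_trans ?_ (hS k hkK i)
        rw [hN]
        exact_mod_cast Finset.card_le_card (Finset.filter_subset_filter
          (fun j => sn (ω i : E (d + 1)) (ω j : E (d + 1)) ≤ ρ) (Finset.subset_univ J))
      have hM0 : (0 : ℝ) ≤ M := Nat.cast_nonneg _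
      have h3 : N ≤ A * y + m ^ (1 - 1 / (d : ℝ)) * (A * y * (M * ρ ^ d)) ^ (1 / (d : ℝ)) := by
        rcases le_or_gt N (A * y) with h | h
        · have : 0 ≤ m ^ (1 - 1 / (d : ℝ)) * (A * y * (M * ρ ^ d)) ^ (1 / (d : ℝ)) := by positivity
          linarith
        · have h4 := min_le_geom hm0 (by positivity : 0 ≤ A * y * (M * ρ ^ d))
            (z := N - A * y) (by linarith) (by linarith) (by linarith)
            (t := 1 / (d : ℝ)) (by positivity) (by rw [div_le_one hd0]; exact hd1)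
          linarith
      have h5 : (A * y * (M * ρ ^ d)) ^ (1 / (d : ℝ)) ≤ A * y * ((M : ℝ) ^ (1 / (d : ℝ)) * ρ) := by
        rw [Real.mul_rpow (by positivity) (by positivity), Real.mul_rpow hM0 (by positivity)]
        have h6 : (ρ ^ d) ^ (1 / (d : ℝ)) = ρ := by
          rw [← Real.rpow_natCast, ← Real.rpow_mul hρ0.le, mul_one_div_cancel hd0.ne',
            Real.rpow_one]
        rw [h6]
        have h7 : (A * y) ^ (1 / (d : ℝ)) ≤ A * y := by
          calc (A * y) ^ (1 / (d : ℝ)) ≤ (A * y) ^ (1 : ℝ) :=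
                Real.rpow_le_rpow_of_exponent_le hAy (by rw [div_le_one hd0]; exact hd1)
            _ = A * y := Real.rpow_one _
        gcongr
      calc N * (y * ρ⁻¹) ≤ (A * y + m ^ (1 - 1 / (d : ℝ)) *
            (A * y * ((M : ℝ) ^ (1 / (d : ℝ)) * ρ))) * (y * ρ⁻¹) := by
            gcongr
            exact h3.trans (by gcongr)
        _ = (y * (A * y)) * (ρ⁻¹ + m ^ (1 - 1 / (d : ℝ)) * (M : ℝ) ^ (1 / (d : ℝ)) * (ρ * ρ⁻¹)) := by
            ring
        _ = (y * (A * y)) * (ρ⁻¹ + m ^ (1 - 1 / (d : ℝ)) * (M : ℝ) ^ (1 / (d : ℝ))) := by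
            rw [mul_inv_cancel₀ hρ0.ne', mul_one]
        _ ≤ _ := by gcongr
    refine (Finset.sum_le_sum h2).trans (le_of_eq ?_)
    rw [Finset.sum_const, Finset.card_range, nsmul_eq_mul, hX]
    push_cast
    ring
  · refine le_of_eq ?_
    have h1 : y * y = δ ^ (-(2 / (K : ℝ))) := by
      rw [hy, ← Real.rpow_add hδ]
      congr 1; ring
    rw [hX, ← h1, pow_succ, ← hm]
    field_simp

end Pool.Agent.N248.KT
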