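import Mathlib
import Pool.Agent.N248.KT.Two
set_option autoImplicit false

/-! Random tubes: the inequality without loss, deterministic part. -/

namespace Pool.Agent.N248.KT

open MeasureTheory Set Metric
open scoped ENNReal NNReal
open Pool.Agent.N248.KR (E Dir Good cyl cyl_meas)
open Pool.Agent.TH705.RR (sn)

variable {d M : ℕ}

theorem ofReal_natpow (N : ℕ) {s : ℝ} (hs : 0 ≤ s) :
    (N : ℝ≥0∞) ^ s = ENNReal.ofReal ((N : ℝ) ^ s) := by
  rw [← ENNReal.ofReal_natCast, ENNReal.ofReal_rpow_of_nonneg (Nat.cast_nonneg _) hs]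

/-- integration of a pointwise inequality -/
theorem lift (δ : ℝ) (ω : Fin M → Dir (d + 1)) (a : Fin M → E (d + 1)) (J : Finset (Fin M))
    {q s α β : ℝ} (hq : 0 ≤ q) (hs : 0 ≤ s) (hα : 0 ≤ α) (hβ : 0 ≤ β)
    (h : ∀ N : ℕ, N ≤ J.card → (N : ℝ) ^ q ≤ α * (N : ℝ) ^ s + β * (N : ℝ) ^ (2 : ℝ)) :
    ∫⁻ y, FF δ ω a J y ^ q ≤ (ENNReal.ofReal α * ∫⁻ y, FF δ ω a J y ^ s) +
      (ENNReal.ofReal β * ∫⁻ y, FF δ ω a J y ^ (2 : ℝ)) := by
  classical
  have hm := FF_meas δ ω a J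
  rw [← lintegral_const_mul _ (hm.pow_const s), ← lintegral_const_mul _ (hm.pow_const 2),
    ← lintegral_add_left ((hm.pow_const s).const_mul _)]
  refine lintegral_mono fun y => ?_
  rw [FF_eq]
  set N := (J.filter fun i => y ∈ cyl (1 / 2) δ (a i) (ω i : E (d + 1))).card with hN
  have hNJ : N ≤ J.card := Finset.card_filter_le _ _
  rw [ofReal_natpow N hq, ofReal_natpow N hs, ofReal_natpow N (by norm_num : (0 : ℝ) ≤ 2),
    ← ENNReal.ofReal_mul hα, ← ENNReal.ofReal_mul hβ, ← ENNReal.ofReal_add (by positivity)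
    (by positivity)]
  exact ENNReal.ofReal_le_ofReal (h N hNJ)

theorem pow_small {m q : ℝ} (hq : 0 < q) (N : ℕ) (hN : (N : ℝ) ≤ m) :
    (N : ℝ) ^ q ≤ m ^ (q - min q 2) * (N : ℝ) ^ (2 : ℝ) := by
  rcases Nat.eq_zero_or_pos N with h | h
  · subst h
    rw [Nat.cast_zero, Real.zero_rpow hq.ne', Real.zero_rpow (by norm_num), mul_zero]
  have hN1 : (1 : ℝ) ≤ N := by exact_mod_cast h
  have hN0 : (0 : ℝ) < N := by linarith
  rcases le_total q 2 with h2 | h2
  · rw [min_eq_left h2, sub_self, Real.rpow_zero, one_mul]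
    exact Real.rpow_le_rpow_of_exponent_le hN1 h2
  · rw [min_eq_right h2]
    calc (N : ℝ) ^ q = (N : ℝ) ^ (q - 2) * (N : ℝ) ^ (2 : ℝ) := by
          rw [← Real.rpow_add hN0]
          congr 1; ring
      _ ≤ _ := by gcongr

theorem pow_big {m q s κ : ℝ} (hm : 1 ≤ m) (hq : 0 < q) (hs : 0 < s) (hsq : s ≤ q) (hκ : 0 ≤ κ)
    (N : ℕ) (hN : (N : ℝ) ≤ m) : (N : ℝ) ^ q ≤ m ^ ((1 - κ) * (q - s)) * (N : ℝ) ^ s +
      m ^ (q - 2 + 2 * κ) * (N : ℝ) ^ (2 : ℝ) := by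
  have hm0 : 0 < m := by linarith
  rcases Nat.eq_zero_or_pos N with h | h
  · subst h
    rw [Nat.cast_zero, Real.zero_rpow hq.ne', Real.zero_rpow hs.ne', Real.zero_rpow (by norm_num),
      mul_zero, mul_zero, add_zero]
  have hN0 : (0 : ℝ) < N := by exact_mod_cast h
  rcases le_or_gt (N : ℝ) (m ^ (1 - κ)) with h1 | h1
  · have h2 : (N : ℝ) ^ q ≤ m ^ ((1 - κ) * (q - s)) * (N : ℝ) ^ s := by
      calc (N : ℝ) ^ q = (N : ℝ) ^ (q - s) * (N : ℝ) ^ s := by
            rw [← Real.rpow_add hN0]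
            congr 1; ring
        _ ≤ (m ^ (1 - κ)) ^ (q - s) * (N : ℝ) ^ s := by gcongr
        _ = _ := by rw [← Real.rpow_mul hm0.le]
    have h3 : 0 ≤ m ^ (q - 2 + 2 * κ) * (N : ℝ) ^ (2 : ℝ) := by positivity
    linarith
  · have h2 : (N : ℝ) ^ (q - 2) ≤ m ^ (q - 2 + 2 * κ) := by
      rcases le_total 2 q with h3 | h3
      · calc (N : ℝ) ^ (q - 2) ≤ m ^ (q - 2) := by gcongr
          _ ≤ _ := Real.rpow_le_rpow_of_exponent_le hm (by linarith)
      · calc (N : ℝ) ^ (q - 2) ≤ (m ^ (1 - κ)) ^ (q - 2) :=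
              Real.rpow_le_rpow_of_nonpos (by positivity) h1.le (by linarith)
          _ = m ^ ((1 - κ) * (q - 2)) := by rw [← Real.rpow_mul hm0.le]
          _ ≤ _ := Real.rpow_le_rpow_of_exponent_le hm (by nlinarith)
    have h3 : (N : ℝ) ^ q ≤ m ^ (q - 2 + 2 * κ) * (N : ℝ) ^ (2 : ℝ) := by
      calc (N : ℝ) ^ q = (N : ℝ) ^ (q - 2) * (N : ℝ) ^ (2 : ℝ) := by
            rw [← Real.rpow_add hN0]
            congr 1; ring
        _ ≤ _ := by gcongr
    have h4 : 0 ≤ m ^ ((1 - κ) * (q - s)) * (N : ℝ) ^ s := by positivity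
    linarith

open scoped Classical in
/-- **the inequality without loss** -/
theorem core (hd : 2 ≤ d) {γ q : ℝ} (hγ : 0 < γ) (hγd : γ ≤ d) (hq : 1 + 1 / (d : ℝ) < q)
    {κ η ε : ℝ} (hκ : κ = min (1 / 8) (γ / (4 * d ^ 2))) (hη : η = γ / (2 * d))
    (hε : ε = d * (η * κ * (q - (1 + 1 / (d : ℝ))))) {K : ℕ} (hK : 16 * d / γ ≤ K)
    {C1 A δ : ℝ} (hC1 : 1 ≤ C1) (hA : 1 ≤ A) (hδ : 0 < δ) (hδ1 : δ < 1)
    (hM : (M : ℝ) ≤ δ ^ (-((d : ℝ) - γ))) {u : ℕ} {ω : Fin M → Dir (d + 1)}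
    (hG : Good ((d : ℝ) + 1) (C1 * δ ^ (-ε)) δ ω) (hS : Sc K A δ ω)
    (hU : ∀ i, (Finset.univ.filter fun j =>
      sn (ω i : E (d + 1)) (ω j : E (d + 1)) ≤ δ ^ (1 - η)).card ≤ u)
    (a : Fin M → E (d + 1)) (J : Finset (Fin M)) :
    ∫⁻ y, FF δ ω a J y ^ q ≤ ENNReal.ofReal ((C0 d * (u + 1) +
      ((2 ^ d : ℝ) ^ (((d : ℝ) + 1) / d) * C1 ^ (1 / (d : ℝ)) + 2 * (C0 d * ((K + 1) * A)))) *
        (δ ^ d * (J.card : ℝ) ^ (q - 1 / (d : ℝ)))) := by
  have hC := C0_pos d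
  have hd2 : (2 : ℝ) ≤ d := by exact_mod_cast hd
  have hd0 : (0 : ℝ) < d := by linarith
  have hq0 : 0 < q := by
    have : 0 < 1 / (d : ℝ) := by positivity
    linarith
  have hid : 1 / (d : ℝ) ≤ 1 / 2 := by
    apply one_div_le_one_div_of_le <;> linarith
  have hid0 : 0 < 1 / (d : ℝ) := by positivity
  have hη0 : 0 < η := by rw [hη]; positivity
  have hη2 : η ≤ 1 / 2 := by
    rw [hη, div_le_iff₀ (by positivity)]
    linarith
  have hκ0 : 0 < κ := by rw [hκ]; positivity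
  have hκ1 : κ ≤ 1 / 8 := by rw [hκ]; exact min_le_left _ _
  have hκ2 : κ ≤ γ / (4 * d ^ 2) := by rw [hκ]; exact min_le_right _ _
  have hK0 : (0 : ℝ) < K := lt_of_lt_of_le (by positivity) hK
  have hK1 : 1 ≤ K := by exact_mod_cast (Nat.succ_le_iff.2 (by exact_mod_cast hK0 : 0 < K))
  have hK2 : 2 / (K : ℝ) ≤ η / 4 := by
    rw [div_le_iff₀ hK0, hη]
    rw [div_le_iff₀ hγ] at hK
    have h1 : γ / (2 * d) / 4 * K = (K * γ) / (8 * d) := by field_simp; norm_num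
    rw [h1, le_div_iff₀ (by positivity)]
    linarith
  set m : ℝ := (J.card : ℝ) with hm
  rcases Nat.eq_zero_or_pos J.card with hJ0 | hJ0
  · have h1 : J = ∅ := Finset.card_eq_zero.1 hJ0
    have h2 : ∀ y, FF δ ω a J y ^ q = 0 := by
      intro y
      rw [h1]
      unfold FF
      rw [Finset.sum_empty, ENNReal.zero_rpow_of_pos hq0]
    rw [lintegral_congr h2, lintegral_zero]
    exact zero_le
  have hm1 : 1 ≤ m := by rw [hm]; exact_mod_cast hJ0
  have hm0 : 0 < m := by linarith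
  have hδd : 0 < δ ^ d := by positivity
  have hu0 : (0 : ℝ) ≤ u := Nat.cast_nonneg _
  have hNm : ∀ N : ℕ, N ≤ J.card → (N : ℝ) ≤ m := fun N h => by rw [hm]; exact_mod_cast h
  set R : ℝ := δ ^ d * m ^ (q - 1 / (d : ℝ)) with hR
  have hR0 : 0 < R := by positivity
  set D1 : ℝ := (2 ^ d : ℝ) ^ (((d : ℝ) + 1) / d) * C1 ^ (1 / (d : ℝ)) with hD1
  have hD10 : 0 < D1 := by positivity
  set D2 : ℝ := C0 d * ((K + 1) * A) with hD2
  have hD20 : 0 < D2 := by positivity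
  rcases le_or_gt m (δ ^ (-η)) with hsm | hbg
  · -- small families
    have h1 := two_small (r := δ ^ (1 - η)) hδ (by
      calc δ = δ ^ (1 : ℝ) := (Real.rpow_one δ).symm
        _ ≤ _ := Real.rpow_le_rpow_of_exponent_ge hδ hδ1.le (by linarith)) ω hU a J (by
      calc (J.card : ℝ) * δ ≤ δ ^ (-η) * δ := by gcongr
        _ = δ ^ (-η + 1) := (Real.rpow_add_one hδ.ne' _).symm
        _ = δ ^ (1 - η) := by congr 1; ring)
    have h2 := lift δ ω a J (q := q) (s := 2) (α := 0) (β := m ^ (q - min q 2)) hq0.le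
      (by norm_num) le_rfl (by positivity) (fun N hN => by
        rw [zero_mul, zero_add]
        exact pow_small hq0 N (hNm N hN))
    rw [ENNReal.ofReal_zero, zero_mul, zero_add] at h2
    refine h2.trans ?_
    calc ENNReal.ofReal (m ^ (q - min q 2)) * ∫⁻ y, FF δ ω a J y ^ (2 : ℝ)
        ≤ ENNReal.ofReal (m ^ (q - min q 2)) * ENNReal.ofReal (C0 d * (u + 1) * δ ^ d * m) := by
          gcongr
      _ = ENNReal.ofReal (C0 d * (u + 1) * δ ^ d * (m ^ (q - min q 2) * m)) := by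
          rw [← ENNReal.ofReal_mul (by positivity)]
          congr 1; ring
      _ ≤ _ := by
          apply ENNReal.ofReal_le_ofReal
          have h3 : m ^ (q - min q 2) * m ≤ m ^ (q - 1 / (d : ℝ)) := by
            rw [← Real.rpow_add_one hm0.ne']
            refine Real.rpow_le_rpow_of_exponent_le hm1 ?_
            have : 1 + 1 / (d : ℝ) ≤ min q 2 := le_min hq.le (by linarith)
            linarith
          calc C0 d * (u + 1) * δ ^ d * (m ^ (q - min q 2) * m)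
              ≤ C0 d * (u + 1) * δ ^ d * m ^ (q - 1 / (d : ℝ)) := by gcongr
            _ = (C0 d * (u + 1)) * R := by rw [hR]; ring
            _ ≤ _ := by
                refine mul_le_mul_of_nonneg_right ?_ hR0.le
                linarith
  · -- large families
    set s : ℝ := ((d : ℝ) + 1) / d with hs
    have hs1 : s = 1 + 1 / (d : ℝ) := by rw [hs]; field_simp
    have hs0 : 0 < s := by positivity
    have h2 := lift δ ω a J (q := q) (s := s) (α := m ^ ((1 - κ) * (q - s)))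
      (β := m ^ (q - 2 + 2 * κ)) hq0.le hs0.le (by positivity) (by positivity) (fun N hN =>
        pow_big hm1 hq0 hs0 (by linarith) hκ0.le N (hNm N hN))
    have hX1 := dual hδ (by linarith : (1 : ℝ) < (d : ℝ) + 1) (by positivity) hG a J
    rw [add_sub_cancel_right, ← hs, ← hm] at hX1
    have hX2 := two_all (by omega : 1 ≤ d) hδ hδ1 hK1 hA ω hS a J
    rw [← hm] at hX2
    refine h2.trans ((add_le_add (mul_le_mul_right hX1 _) (mul_le_mul_right hX2 _)).trans ?_)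
    rw [← ENNReal.ofReal_mul (by positivity), ← ENNReal.ofReal_mul (by positivity),
      ← ENNReal.ofReal_add (by positivity) (by positivity)]
    apply ENNReal.ofReal_le_ofReal
    have hmM : m ≤ δ ^ (-((d : ℝ) - γ)) := by
      refine le_trans ?_ hM
      have := Finset.card_le_univ J
      rw [Fintype.card_fin] at this
      rw [hm]; exact_mod_cast this
    have hmδ : m ≤ δ ^ (-(d : ℝ)) := hmM.trans
      (Real.rpow_le_rpow_of_exponent_ge hδ hδ1.le (by linarith))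
    -- the first part
    have hA1 : m ^ ((1 - κ) * (q - s)) * ((2 ^ d : ℝ) ^ s * (C1 * δ ^ (-ε)) ^ (1 / (d : ℝ)) *
        δ ^ d * m) ≤ D1 * R := by
      have e1 : (C1 * δ ^ (-ε)) ^ (1 / (d : ℝ)) = C1 ^ (1 / (d : ℝ)) *
          δ ^ (-(η * κ * (q - s))) := by
        rw [Real.mul_rpow (by linarith) (by positivity), ← Real.rpow_mul hδ.le]
        congr 2
        rw [hε, hs1]; field_simp
      have e2 : m ^ ((1 - κ) * (q - s)) * m = m ^ (q - 1 / (d : ℝ)) * m ^ (-(κ * (q - s))) := by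
        rw [← Real.rpow_add_one hm0.ne', ← Real.rpow_add hm0]
        congr 1
        rw [hs1]; ring
      have e3 : m ^ (-(κ * (q - s))) * δ ^ (-(η * κ * (q - s))) ≤ 1 := by
        have h5 : 0 ≤ κ * (q - s) := mul_nonneg hκ0.le (by linarith)
        have h6 : m ^ (-(κ * (q - s))) ≤ (δ ^ (-η)) ^ (-(κ * (q - s))) :=
          Real.rpow_le_rpow_of_nonpos (by positivity) hbg.le (by linarith)
        calc m ^ (-(κ * (q - s))) * δ ^ (-(η * κ * (q - s)))
            ≤ (δ ^ (-η)) ^ (-(κ * (q - s))) * δ ^ (-(η * κ * (q - s))) := by gcongr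
          _ = 1 := by
              rw [← Real.rpow_mul hδ.le, ← Real.rpow_add hδ]
              have : -η * -(κ * (q - s)) + -(η * κ * (q - s)) = 0 := by ring
              rw [this, Real.rpow_zero]
      calc m ^ ((1 - κ) * (q - s)) * ((2 ^ d : ℝ) ^ s * (C1 * δ ^ (-ε)) ^ (1 / (d : ℝ)) *
            δ ^ d * m) = (2 ^ d : ℝ) ^ s * C1 ^ (1 / (d : ℝ)) * δ ^ d *
              (m ^ ((1 - κ) * (q - s)) * m) * δ ^ (-(η * κ * (q - s))) := by
            rw [e1]; ring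
        _ = D1 * R * (m ^ (-(κ * (q - s))) * δ ^ (-(η * κ * (q - s)))) := by
            rw [e2, hD1, hR]; ring
        _ ≤ D1 * R * 1 := by gcongr
        _ = D1 * R := mul_one _
    -- the second part
    have hA2 : m ^ (q - 2 + 2 * κ) * (D2 * δ ^ (-(2 / (K : ℝ))) * δ ^ d *
        (m * (1 + m ^ (1 - 1 / (d : ℝ)) * (δ * (M : ℝ) ^ (1 / (d : ℝ)))))) ≤ 2 * D2 * R := by
      have hMd : δ * (M : ℝ) ^ (1 / (d : ℝ)) ≤ δ ^ (γ / d) := by
        calc δ * (M : ℝ) ^ (1 / (d : ℝ)) ≤ δ * (δ ^ (-((d : ℝ) - γ))) ^ (1 / (d : ℝ)) := by gcongr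
          _ = δ ^ (1 + (-((d : ℝ) - γ)) * (1 / (d : ℝ))) := by
              rw [← Real.rpow_mul hδ.le, Real.rpow_add hδ, Real.rpow_one]
          _ = δ ^ (γ / d) := by
              congr 1
              field_simp
              ring
      have f1 : m ^ (q - 2 + 2 * κ) * m * δ ^ (-(2 / (K : ℝ))) ≤ m ^ (q - 1 / (d : ℝ)) := by
        have g1 : m ^ (q - 2 + 2 * κ) * m ≤ m ^ (q - 1 / (d : ℝ)) * m ^ (-(1 / 4) : ℝ) := by
          rw [← Real.rpow_add_one hm0.ne', ← Real.rpow_add hm0]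
          refine Real.rpow_le_rpow_of_exponent_le hm1 ?_
          linarith
        have g2 : m ^ (-(1 / 4) : ℝ) * δ ^ (-(2 / (K : ℝ))) ≤ 1 := by
          have h6 : m ^ (-(1 / 4) : ℝ) ≤ (δ ^ (-η)) ^ (-(1 / 4) : ℝ) :=
            Real.rpow_le_rpow_of_nonpos (by positivity) hbg.le (by norm_num)
          calc m ^ (-(1 / 4) : ℝ) * δ ^ (-(2 / (K : ℝ)))
              ≤ (δ ^ (-η)) ^ (-(1 / 4) : ℝ) * δ ^ (-(2 / (K : ℝ))) := by gcongr
            _ = δ ^ (η / 4 - 2 / (K : ℝ)) := by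
                rw [← Real.rpow_mul hδ.le, ← Real.rpow_add hδ]
                congr 1; ring
            _ ≤ 1 := Real.rpow_le_one hδ.le hδ1.le (by linarith)
        calc m ^ (q - 2 + 2 * κ) * m * δ ^ (-(2 / (K : ℝ)))
            ≤ (m ^ (q - 1 / (d : ℝ)) * m ^ (-(1 / 4) : ℝ)) * δ ^ (-(2 / (K : ℝ))) := by gcongr
          _ = m ^ (q - 1 / (d : ℝ)) * (m ^ (-(1 / 4) : ℝ) * δ ^ (-(2 / (K : ℝ)))) := by ring
          _ ≤ m ^ (q - 1 / (d : ℝ)) * 1 := by gcongr
          _ = _ := mul_one _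
      have f2 : m ^ (q - 2 + 2 * κ) * m * m ^ (1 - 1 / (d : ℝ)) * δ ^ (γ / d) *
          δ ^ (-(2 / (K : ℝ))) ≤ m ^ (q - 1 / (d : ℝ)) := by
        have g1 : m ^ (q - 2 + 2 * κ) * m * m ^ (1 - 1 / (d : ℝ)) =
            m ^ (q - 1 / (d : ℝ)) * m ^ (2 * κ) := by
          rw [← Real.rpow_add_one hm0.ne', ← Real.rpow_add hm0, ← Real.rpow_add hm0]
          congr 1; ring
        have g2 : m ^ (2 * κ) ≤ δ ^ (-(γ / (2 * d))) := by
          calc m ^ (2 * κ) ≤ (δ ^ (-(d : ℝ))) ^ (2 * κ) := by gcongr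
            _ = δ ^ (-(d : ℝ) * (2 * κ)) := by rw [← Real.rpow_mul hδ.le]
            _ ≤ δ ^ (-(γ / (2 * d))) := by
                refine Real.rpow_le_rpow_of_exponent_ge hδ hδ1.le ?_
                have h7 : (d : ℝ) * (2 * κ) ≤ γ / (2 * d) := by
                  calc (d : ℝ) * (2 * κ) ≤ d * (2 * (γ / (4 * d ^ 2))) := by gcongr
                    _ = γ / (2 * d) := by field_simp; norm_num
                linarith
        calc m ^ (q - 2 + 2 * κ) * m * m ^ (1 - 1 / (d : ℝ)) * δ ^ (γ / d) * δ ^ (-(2 / (K : ℝ)))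
            = m ^ (q - 1 / (d : ℝ)) * (m ^ (2 * κ) * (δ ^ (γ / d) * δ ^ (-(2 / (K : ℝ))))) := by
              rw [g1]; ring
          _ ≤ m ^ (q - 1 / (d : ℝ)) * (δ ^ (-(γ / (2 * d))) *
                (δ ^ (γ / d) * δ ^ (-(2 / (K : ℝ))))) := by gcongr
          _ = m ^ (q - 1 / (d : ℝ)) * δ ^ (γ / (2 * d) - 2 / (K : ℝ)) := by
              rw [← Real.rpow_add hδ, ← Real.rpow_add hδ]
              congr 2
              field_simp
              ring
          _ ≤ m ^ (q - 1 / (d : ℝ)) * 1 := by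
              gcongr
              refine Real.rpow_le_one hδ.le hδ1.le ?_
              rw [← hη]; linarith
          _ = _ := mul_one _
      calc m ^ (q - 2 + 2 * κ) * (D2 * δ ^ (-(2 / (K : ℝ))) * δ ^ d *
            (m * (1 + m ^ (1 - 1 / (d : ℝ)) * (δ * (M : ℝ) ^ (1 / (d : ℝ))))))
          ≤ m ^ (q - 2 + 2 * κ) * (D2 * δ ^ (-(2 / (K : ℝ))) * δ ^ d *
            (m * (1 + m ^ (1 - 1 / (d : ℝ)) * δ ^ (γ / d)))) := by gcongr
        _ = D2 * δ ^ d * (m ^ (q - 2 + 2 * κ) * m * δ ^ (-(2 / (K : ℝ)))) +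
            D2 * δ ^ d * (m ^ (q - 2 + 2 * κ) * m * m ^ (1 - 1 / (d : ℝ)) * δ ^ (γ / d) *
              δ ^ (-(2 / (K : ℝ)))) := by ring
        _ ≤ D2 * δ ^ d * m ^ (q - 1 / (d : ℝ)) + D2 * δ ^ d * m ^ (q - 1 / (d : ℝ)) := by
            gcongr
        _ = 2 * D2 * R := by rw [hR]; ring
    have h9 : 0 ≤ C0 d * (u + 1) * R := by positivity
    linarith

end Pool.Agent.N248.KT
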