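import Mathlib
import Pool.Agent.N248.KT.Core
import Pool.Agent.N248.KR.Conv
set_option autoImplicit false

/-! Random tubes: from the maximal inequality to the inequality for tubes without loss. -/

namespace Pool.Agent.N248.KT

open MeasureTheory Set Metric
open scoped ENNReal NNReal
open Pool.Agent.N248.KR (E Dir Good cyl cyl_meas Pu RandP)
open Pool.Agent.TH705.RR (sn)

variable {d M : ℕ}

/-- the inequality for tubes in random directions -/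
def RT (d : ℕ) (γ : ℝ) : Prop :=
  ∀ q : ℝ, 1 + 1 / (d : ℝ) < q → ∀ B : ℝ, 0 < B → ∃ C : ℝ, 0 < C ∧ ∀ δ : ℝ, 0 < δ → δ < 1 →
    ∀ M : ℕ, (M : ℝ) ≤ δ ^ (-((d : ℝ) - γ)) →
    (Measure.pi fun _ : Fin M => Pu d) {ω | ¬ ∀ (a : Fin M → E (d + 1)) (J : Finset (Fin M)),
      ∫⁻ y, FF δ ω a J y ^ q ≤ ENNReal.ofReal (C * (δ ^ d * (J.card : ℝ) ^ (q - 1 / (d : ℝ))))} ≤
      ENNReal.ofReal (C * δ ^ B)

theorem up (hd : 2 ≤ d) {γ : ℝ} (hγ : 0 < γ) (hγd : γ ≤ d) (h : RandP d (Pu d) ((d : ℝ) + 1) γ) :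
    RT d γ := by
  classical
  intro q hq B hB
  have hC := C0_pos d
  have hd2 : (2 : ℝ) ≤ d := by exact_mod_cast hd
  have hd0 : (0 : ℝ) < d := by linarith
  obtain ⟨κ, hκ⟩ : ∃ κ : ℝ, κ = min (1 / 8) (γ / (4 * d ^ 2)) := ⟨_, rfl⟩
  obtain ⟨η, hη⟩ : ∃ η : ℝ, η = γ / (2 * d) := ⟨_, rfl⟩
  obtain ⟨ε, hε⟩ : ∃ ε : ℝ, ε = d * (η * κ * (q - (1 + 1 / (d : ℝ)))) := ⟨_, rfl⟩
  obtain ⟨K, hK⟩ : ∃ K : ℕ, 16 * d / γ ≤ (K : ℝ) := exists_nat_ge _
  have hκ0 : 0 < κ := by rw [hκ]; positivity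
  have hη0 : 0 < η := by rw [hη]; positivity
  have hη2 : η ≤ 1 / 2 := by
    rw [hη, div_le_iff₀ (by positivity)]
    linarith
  have hε0 : 0 < ε := by
    rw [hε]
    have : 0 < q - (1 + 1 / (d : ℝ)) := by linarith
    positivity
  have hK0 : (0 : ℝ) < K := lt_of_lt_of_le (by positivity) hK
  have hK1 : 1 ≤ K := by exact_mod_cast (Nat.succ_le_iff.2 (by exact_mod_cast hK0 : 0 < K))
  obtain ⟨C1, hC1, h1⟩ := h ε hε0 B hB
  obtain ⟨A, hA, hSc⟩ := Sc_prob d hK1 hB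
  obtain ⟨C2, hC2, hcr⟩ := crowd d
  obtain ⟨u, hu⟩ : ∃ u : ℕ, (B + (d + 1)) / (γ / 2) ≤ (u : ℝ) := exists_nat_ge _
  have hu' : B + (d + 1) ≤ γ / 2 * u := by
    rw [div_le_iff₀ (by positivity)] at hu
    linarith
  set C3 : ℝ := C0 d * (u + 1) +
      ((2 ^ d : ℝ) ^ (((d : ℝ) + 1) / d) * (max C1 1) ^ (1 / (d : ℝ)) +
        2 * (C0 d * ((K + 1) * A))) with hC3
  have hC30 : 0 < C3 := by positivity
  refine ⟨C3 + (C1 + (A + C2 ^ (d + 1) * C2 ^ (u + 1))), by positivity, ?_⟩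
  intro δ hδ hδ1 M hM
  have hsub : {ω : Fin M → Dir (d + 1) | ¬ ∀ (a : Fin M → E (d + 1)) (J : Finset (Fin M)),
      ∫⁻ y, FF δ ω a J y ^ q ≤ ENNReal.ofReal ((C3 + (C1 + (A + C2 ^ (d + 1) * C2 ^ (u + 1)))) *
        (δ ^ d * (J.card : ℝ) ^ (q - 1 / (d : ℝ))))} ⊆
      {ω | ¬ Good ((d : ℝ) + 1) (C1 * δ ^ (-ε)) δ ω} ∪ ({ω | ¬ Sc K A δ ω} ∪
        {ω | ∃ i, ∃ T : Finset (Fin M), T.card = u + 1 ∧
          ∀ j ∈ T, sn (ω i : E (d + 1)) (ω j : E (d + 1)) ≤ δ ^ (1 - η)}) := by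
    intro ω hω
    by_contra hcon
    rw [mem_union, mem_union, not_or, not_or] at hcon
    obtain ⟨g1, g2, g3⟩ := hcon
    have g1' : Good ((d : ℝ) + 1) (C1 * δ ^ (-ε)) δ ω := by
      by_contra hh; exact g1 hh
    have g2' : Sc K A δ ω := by
      by_contra hh; exact g2 hh
    apply hω
    intro a J
    have hU : ∀ i, (Finset.univ.filter fun j =>
        sn (ω i : E (d + 1)) (ω j : E (d + 1)) ≤ δ ^ (1 - η)).card ≤ u := by
      intro i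
      by_contra hh
      rw [not_le] at hh
      obtain ⟨T, hT, hTc⟩ := Finset.exists_subset_card_eq (Nat.succ_le_iff.2 hh)
      exact g3 ⟨i, T, hTc, fun j hj => (Finset.mem_filter.1 (hT hj)).2⟩
    have hmain := core hd hγ hγd hq hκ hη hε hK (le_max_right C1 1) hA hδ hδ1 hM
      (g1'.mono (by gcongr; exact le_max_left _ _)) g2' hU a J
    refine hmain.trans (ENNReal.ofReal_le_ofReal ?_)
    rw [← hC3]
    have h0 : 0 ≤ C1 + (A + C2 ^ (d + 1) * C2 ^ (u + 1)) := by positivity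
    refine mul_le_mul_of_nonneg_right (by linarith) ?_
    exact mul_nonneg (by positivity) (Real.rpow_nonneg (Nat.cast_nonneg _) _)
  refine (measure_mono hsub).trans ((measure_union_le _ _).trans
    ((add_le_add (h1 δ hδ hδ1 M hM) ((measure_union_le _ _).trans
      (add_le_add (hSc δ hδ hδ1 M) (hcr (δ ^ (1 - η)) (by positivity)
        (Real.rpow_lt_one hδ.le hδ1 (by linarith)) M (u + 1))))).trans ?_))
  rw [← ENNReal.ofReal_add (by positivity) (by positivity),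
    ← ENNReal.ofReal_add (by positivity) (by positivity)]
  apply ENNReal.ofReal_le_ofReal
  have hδB : 0 < δ ^ B := by positivity
  have h5 : (C2 / δ ^ (1 - η)) ^ (d + 1) * (C2 * M * (δ ^ (1 - η)) ^ d) ^ (u + 1) ≤
      C2 ^ (d + 1) * C2 ^ (u + 1) * δ ^ B := by
    have e1 : δ ≤ δ ^ (1 - η) := by
      calc δ = δ ^ (1 : ℝ) := (Real.rpow_one δ).symm
        _ ≤ _ := Real.rpow_le_rpow_of_exponent_ge hδ hδ1.le (by linarith)
    have e2 : (M : ℝ) * (δ ^ (1 - η)) ^ d ≤ δ ^ (γ / 2) := by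
      calc (M : ℝ) * (δ ^ (1 - η)) ^ d ≤ δ ^ (-((d : ℝ) - γ)) * (δ ^ (1 - η)) ^ d := by gcongr
        _ = δ ^ (-((d : ℝ) - γ) + (1 - η) * d) := by
            rw [← Real.rpow_natCast, ← Real.rpow_mul hδ.le, ← Real.rpow_add hδ]
        _ = δ ^ (γ / 2) := by
            congr 1
            rw [hη]; field_simp; ring
    calc (C2 / δ ^ (1 - η)) ^ (d + 1) * (C2 * M * (δ ^ (1 - η)) ^ d) ^ (u + 1)
        = (C2 / δ ^ (1 - η)) ^ (d + 1) * (C2 * (M * (δ ^ (1 - η)) ^ d)) ^ (u + 1) := by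
          rw [mul_assoc]
      _ ≤ (C2 / δ) ^ (d + 1) * (C2 * δ ^ (γ / 2)) ^ (u + 1) := by gcongr
      _ = C2 ^ (d + 1) * C2 ^ (u + 1) * ((δ ^ (γ / 2)) ^ (u + 1) / δ ^ (d + 1)) := by
          rw [div_pow, mul_pow]; ring
      _ = C2 ^ (d + 1) * C2 ^ (u + 1) * δ ^ (γ / 2 * (u + 1) - (d + 1)) := by
          congr 1
          have h7 : (δ ^ (d + 1) : ℝ) = δ ^ ((d : ℝ) + 1) := by
            rw [← Real.rpow_natCast]; push_cast; rfl
          rw [h7, ← Real.rpow_natCast, ← Real.rpow_mul hδ.le, ← Real.rpow_sub hδ]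
          push_cast
          rfl
      _ ≤ C2 ^ (d + 1) * C2 ^ (u + 1) * δ ^ B := by
          refine mul_le_mul_of_nonneg_left
            (Real.rpow_le_rpow_of_exponent_ge hδ hδ1.le ?_) (by positivity)
          nlinarith
  have h6 : 0 ≤ C3 * δ ^ B := by positivity
  calc C1 * δ ^ B + (A * δ ^ B +
        (C2 / δ ^ (1 - η)) ^ (d + 1) * (C2 * M * (δ ^ (1 - η)) ^ d) ^ (u + 1))
      ≤ C1 * δ ^ B + (A * δ ^ B + C2 ^ (d + 1) * C2 ^ (u + 1) * δ ^ B) := by gcongr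
    _ ≤ C3 * δ ^ B + (C1 * δ ^ B + (A * δ ^ B + C2 ^ (d + 1) * C2 ^ (u + 1) * δ ^ B)) := by
        linarith
    _ = _ := by ring

end Pool.Agent.N248.KT
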