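import Mathlib
import Pool.Agent.N248.KT.Up
set_option autoImplicit false

/-! Random tubes: from the inequality for tubes to the maximal inequality. -/

namespace Pool.Agent.N248.KT

open MeasureTheory Set Metric
open scoped ENNReal NNReal
open Pool.Agent.N248.KR (E Dir Good cyl cyl_meas Pu RandP kmax kmax_ind_le_one kap kap_pos
  vol_cyl_le vol_cyl_ge strong)

variable {d M : ℕ}

theorem hoelder (δ : ℝ) (ω : Fin M → Dir (d + 1)) (a : Fin M → E (d + 1)) (J : Finset (Fin M))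
    {D : Set (E (d + 1))} (hD : MeasurableSet D) {q : ℝ} (hq : 1 < q) :
    ∑ i ∈ J, volume (cyl (1 / 2) δ (a i) (ω i : E (d + 1)) ∩ D) ≤
      (∫⁻ y, FF δ ω a J y ^ q) ^ (1 / q) * volume D ^ (1 - 1 / q) := by
  have hq0 : 0 < q := by linarith
  have h1 : ∑ i ∈ J, volume (cyl (1 / 2) δ (a i) (ω i : E (d + 1)) ∩ D) =
      ∫⁻ y, FF δ ω a J y * D.indicator 1 y := by
    have h2 : ∀ y, FF δ ω a J y * D.indicator 1 y = ∑ i ∈ J,
        (cyl (1 / 2) δ (a i) (ω i : E (d + 1)) ∩ D).indicator (1 : E (d + 1) → ℝ≥0∞) y := by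
      intro y
      unfold FF
      rw [Finset.sum_mul]
      refine Finset.sum_congr rfl fun i _ => ?_
      rw [Set.inter_indicator_one]
      rfl
    rw [lintegral_congr h2, lintegral_finsetSum _ fun i _ =>
      measurable_one.indicator ((cyl_meas _ _ _ _).inter hD)]
    exact Finset.sum_congr rfl fun i _ =>
      (lintegral_indicator_one ((cyl_meas _ _ _ _).inter hD)).symm
  rw [h1]
  have h3 : q.HolderConjugate (q / (q - 1)) := Real.HolderConjugate.conjExponent hq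
  have h4 := ENNReal.lintegral_mul_le_Lp_mul_Lq volume h3 (f := FF δ ω a J)
    (g := D.indicator 1) (FF_meas δ ω a J).aemeasurable (measurable_one.indicator hD).aemeasurable
  have hr : 0 < q / (q - 1) := h3.symm.pos
  have h5 : ∫⁻ y, (D.indicator 1 y : ℝ≥0∞) ^ (q / (q - 1)) = volume D := by
    rw [← lintegral_indicator_one hD]
    refine lintegral_congr fun y => ?_
    by_cases h : y ∈ D
    · rw [indicator_of_mem h, Pi.one_apply, ENNReal.one_rpow]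
    · rw [indicator_of_notMem h, ENNReal.zero_rpow_of_pos hr]
  have h6 : 1 / (q / (q - 1)) = 1 - 1 / q := by
    have : q - 1 ≠ 0 := by linarith
    field_simp
  rw [h5, h6] at h4
  exact h4

theorem real_weak (hd : 1 ≤ d) {t δ C k m η v q : ℝ} (ht : 0 < t) (hδ : 0 < δ) (hδ1 : δ < 1)
    (hC : 1 ≤ C) (hκ : 0 < k) (hm1 : 1 ≤ m) (hMm : m * δ ^ d ≤ 1) (hη : 0 < η) (hη1 : η < 1)
    (hv0 : 0 ≤ v) (hq : q = 1 + 1 / (d : ℝ) + t / d)
    (hreal : m * (η * (k * δ ^ d)) ≤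
      (C * (δ ^ d * m ^ (q - 1 / (d : ℝ)))) ^ (1 / q) * v ^ (1 - 1 / q)) :
    m * (η ^ ((d : ℝ) + 1) * δ ^ d) ≤
      (C ^ d * k ^ (-((d : ℝ) + 1 + t)) * δ ^ (-(2 * d * t)) + 1) * v := by
  have hd0 : (0 : ℝ) < d := by exact_mod_cast hd
  have hd1 : (1 : ℝ) ≤ d := by exact_mod_cast hd
  have hm0 : 0 < m := by linarith
  have hδd : 0 < δ ^ d := by positivity
  have hq1 : 1 < q := by
    have h1 : 0 < 1 / (d : ℝ) := by positivity
    have h2 : 0 < t / d := by positivity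
    linarith
  have hq0 : 0 < q := by linarith
  obtain ⟨C1, hC1⟩ : ∃ C1 : ℝ, C1 = C ^ d * k ^ (-((d : ℝ) + 1 + t)) := ⟨_, rfl⟩
  have hC10 : 0 < C1 := by rw [hC1]; positivity
  have e1 : (m * (η * (k * δ ^ d))) ^ q ≤ C * (δ ^ d * m ^ (q - 1 / (d : ℝ))) * v ^ (q - 1) := by
    calc (m * (η * (k * δ ^ d))) ^ q
        ≤ ((C * (δ ^ d * m ^ (q - 1 / (d : ℝ)))) ^ (1 / q) * v ^ (1 - 1 / q)) ^ q := by gcongr
      _ = _ := by
          rw [Real.mul_rpow (by positivity) (by positivity), ← Real.rpow_mul (by positivity),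
            ← Real.rpow_mul hv0]
          have h1 : 1 / q * q = 1 := by field_simp
          have h2 : (1 - 1 / q) * q = q - 1 := by field_simp
          rw [h1, h2, Real.rpow_one]
  have hv1 : 0 < v := by
    rcases hv0.eq_or_lt with h0 | h0
    · exfalso
      rw [← h0, Real.zero_rpow (by linarith), mul_zero] at e1
      have : 0 < (m * (η * (k * δ ^ d))) ^ q := by positivity
      linarith
    · exact h0
  -- the exponents
  have e2 : m ≤ C1 * (η ^ (-((d : ℝ) + 1 + t)) * ((δ ^ d)⁻¹ * v) ^ (1 + t)) := by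
    have h1 : (m * (η * (k * δ ^ d))) ^ q = m ^ (q - 1 / (d : ℝ)) * (m ^ (1 / (d : ℝ)) *
        ((η * k) ^ q * (δ ^ d) ^ q)) := by
      rw [← mul_assoc η, Real.mul_rpow hm0.le (by positivity),
        Real.mul_rpow (by positivity) hδd.le, ← mul_assoc (m ^ (q - 1 / (d : ℝ))),
        ← Real.rpow_add hm0]
      congr 2
      ring
    rw [h1] at e1
    have h2 : m ^ (1 / (d : ℝ)) * ((η * k) ^ q * (δ ^ d) ^ q) ≤ C * δ ^ d * v ^ (q - 1) := by
      have h3 : 0 < m ^ (q - 1 / (d : ℝ)) := by positivity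
      have h4 : C * (δ ^ d * m ^ (q - 1 / (d : ℝ))) * v ^ (q - 1) =
          m ^ (q - 1 / (d : ℝ)) * (C * δ ^ d * v ^ (q - 1)) := by ring
      rw [h4] at e1
      exact le_of_mul_le_mul_left e1 h3
    have h3 : m ^ (1 / (d : ℝ)) ≤ C * (η * k) ^ (-q) * ((δ ^ d)⁻¹ * v) ^ (q - 1) := by
      have h4 : 0 < (η * k) ^ q * (δ ^ d) ^ q := by positivity
      rw [← le_div_iff₀ h4] at h2
      refine h2.trans (le_of_eq ?_)
      rw [Real.rpow_neg (by positivity), Real.mul_rpow (by positivity) hv0,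
        Real.inv_rpow hδd.le, Real.rpow_sub_one hδd.ne']
      field_simp
    have h5 : (m ^ (1 / (d : ℝ))) ^ (d : ℝ) = m := by
      rw [← Real.rpow_mul hm0.le, one_div_mul_cancel hd0.ne', Real.rpow_one]
    calc m = (m ^ (1 / (d : ℝ))) ^ (d : ℝ) := h5.symm
      _ ≤ (C * (η * k) ^ (-q) * ((δ ^ d)⁻¹ * v) ^ (q - 1)) ^ (d : ℝ) := by gcongr
      _ = C ^ (d : ℝ) * (η * k) ^ (-q * d) * ((δ ^ d)⁻¹ * v) ^ ((q - 1) * d) := by
          rw [Real.mul_rpow (by positivity) (by positivity),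
            Real.mul_rpow (by positivity) (by positivity), ← Real.rpow_mul (by positivity),
            ← Real.rpow_mul (by positivity)]
      _ = _ := by
          have h6 : -q * d = -((d : ℝ) + 1 + t) := by rw [hq]; field_simp
          have h7 : (q - 1) * d = 1 + t := by rw [hq]; field_simp; ring
          rw [h6, h7, Real.rpow_natCast, Real.mul_rpow hη.le hκ.le, hC1]
          ring
  have hηd : η ^ ((d : ℝ) + 1) ≤ η := by
    calc η ^ ((d : ℝ) + 1) ≤ η ^ (1 : ℝ) :=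
          Real.rpow_le_rpow_of_exponent_ge hη hη1.le (by linarith)
      _ = η := Real.rpow_one η
  rw [← hC1]
  obtain ⟨w, hw⟩ : ∃ w : ℝ, w = η⁻¹ * ((δ ^ d)⁻¹ * v) := ⟨_, rfl⟩
  have hw0 : 0 < w := by rw [hw]; positivity
  rcases le_or_gt w (δ ^ (-(2 * d : ℝ))) with hcase | hcase
  · have f1 : η ^ (-((d : ℝ) + 1 + t)) * ((δ ^ d)⁻¹ * v) ^ (1 + t) =
        η ^ (-((d : ℝ) + 1)) * ((δ ^ d)⁻¹ * v) * w ^ t := by
      have hx : 0 < (δ ^ d)⁻¹ * v := by positivity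
      have g1 : w ^ t = η ^ (-t) * ((δ ^ d)⁻¹ * v) ^ t := by
        rw [hw, Real.mul_rpow (by positivity) hx.le, Real.inv_rpow hη.le, ← Real.rpow_neg hη.le]
      have g2 : η ^ (-((d : ℝ) + 1 + t)) = η ^ (-((d : ℝ) + 1)) * η ^ (-t) := by
        rw [← Real.rpow_add hη]
        congr 1; ring
      have g3 : ((δ ^ d)⁻¹ * v) ^ (1 + t) = ((δ ^ d)⁻¹ * v) * ((δ ^ d)⁻¹ * v) ^ t := by
        rw [Real.rpow_add hx, Real.rpow_one]
      rw [g1, g2, g3]
      ring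
    have f2 : w ^ t ≤ δ ^ (-(2 * d * t)) := by
      calc w ^ t ≤ (δ ^ (-(2 * d : ℝ))) ^ t := by gcongr
        _ = _ := by
            rw [← Real.rpow_mul hδ.le]
            congr 1; ring
    calc m * (η ^ ((d : ℝ) + 1) * δ ^ d)
        ≤ (C1 * (η ^ (-((d : ℝ) + 1)) * ((δ ^ d)⁻¹ * v) * w ^ t)) *
            (η ^ ((d : ℝ) + 1) * δ ^ d) := by
          rw [f1] at e2
          gcongr
      _ = C1 * w ^ t * v * ((η ^ (-((d : ℝ) + 1)) * η ^ ((d : ℝ) + 1)) * ((δ ^ d)⁻¹ * δ ^ d)) := by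
          ring
      _ = C1 * w ^ t * v := by
          rw [inv_mul_cancel₀ hδd.ne', ← Real.rpow_add hη, neg_add_cancel, Real.rpow_zero]
          ring
      _ ≤ C1 * δ ^ (-(2 * d * t)) * v := by gcongr
      _ ≤ _ := by
          rw [add_mul, one_mul]
          linarith
  · have f1 : η ≤ v := by
      have h1 : v = w * (η * δ ^ d) := by
        rw [hw]
        field_simp
      have h2 : 1 ≤ w * δ ^ d := by
        have h3 : (1 : ℝ) ≤ δ ^ (-(2 * d : ℝ)) * δ ^ d := by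
          rw [← Real.rpow_natCast δ d, ← Real.rpow_add hδ]
          exact Real.one_le_rpow_of_pos_of_le_one_of_nonpos hδ hδ1.le (by linarith)
        exact h3.trans (by gcongr)
      calc η = 1 * η := (one_mul η).symm
        _ ≤ (w * δ ^ d) * η := by gcongr
        _ = v := by rw [h1]; ring
    calc m * (η ^ ((d : ℝ) + 1) * δ ^ d) = (m * δ ^ d) * η ^ ((d : ℝ) + 1) := by ring
      _ ≤ 1 * η := by gcongr
      _ ≤ 1 * v := by gcongr
      _ ≤ _ := by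
          have : 0 ≤ C1 * δ ^ (-(2 * d * t)) * v := by positivity
          rw [add_mul]
          linarith

open scoped Classical in
/-- **weak type from tubes** -/
theorem weak_of_tubes (hd : 1 ≤ d) {t δ C : ℝ} (ht : 0 < t) (hδ : 0 < δ) (hδ1 : δ < 1) (hC : 1 ≤ C)
    (hM : (M : ℝ) * δ ^ d ≤ 1) {ω : Fin M → Dir (d + 1)}
    (h : ∀ (a : Fin M → E (d + 1)) (J : Finset (Fin M)), ∫⁻ y, FF δ ω a J y ^ (1 + 1 / (d : ℝ) + t / d) ≤
      ENNReal.ofReal (C * (δ ^ d * (J.card : ℝ) ^ (1 + 1 / (d : ℝ) + t / d - 1 / (d : ℝ)))))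
    (D : Set (E (d + 1))) (hD : MeasurableSet D) (hDf : volume D ≠ ⊤) (η : ℝ) (hη : 0 < η) :
    ((Finset.univ.filter fun i =>
      ENNReal.ofReal η < kmax δ (D.indicator 1) (ω i : E (d + 1))).card : ℝ) *
        (η ^ ((d : ℝ) + 1) * δ ^ d) ≤
      (C ^ d * (kap d) ^ (-((d : ℝ) + 1 + t)) * δ ^ (-(2 * d * t)) + 1) * (volume D).toReal := by
  have hκ := kap_pos d
  have hd0 : (0 : ℝ) < d := by exact_mod_cast hd
  obtain ⟨q, hq⟩ : ∃ q : ℝ, q = 1 + 1 / (d : ℝ) + t / d := ⟨_, rfl⟩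
  rw [← hq] at h
  have hq1 : 1 < q := by
    have h1 : 0 < 1 / (d : ℝ) := by positivity
    have h2 : 0 < t / d := by positivity
    linarith
  have hq0 : 0 < q := by linarith
  obtain ⟨I, hI⟩ : ∃ I : Finset (Fin M), I = Finset.univ.filter fun i =>
      ENNReal.ofReal η < kmax δ (D.indicator 1) (ω i : E (d + 1)) := ⟨_, rfl⟩
  rw [← hI]
  have hIm : ∀ i ∈ I, ENNReal.ofReal η < kmax δ (D.indicator 1) (ω i : E (d + 1)) := by
    intro i hi
    rw [hI] at hi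
    exact (Finset.mem_filter.1 hi).2
  clear hI
  obtain ⟨m, hm⟩ : ∃ m : ℝ, m = (I.card : ℝ) := ⟨_, rfl⟩
  obtain ⟨v, hv⟩ : ∃ v : ℝ, v = (volume D).toReal := ⟨_, rfl⟩
  have hv0 : 0 ≤ v := by rw [hv]; exact ENNReal.toReal_nonneg
  have hve : volume D = ENNReal.ofReal v := by rw [hv]; exact (ENNReal.ofReal_toReal hDf).symm
  have hδd : 0 < δ ^ d := by positivity
  rw [← hm, ← hv]
  rcases I.eq_empty_or_nonempty with h0 | ⟨i0, hi0⟩
  · rw [hm, h0, Finset.card_empty, Nat.cast_zero, zero_mul]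
    positivity
  have hm1 : 1 ≤ m := by
    rw [hm]; exact_mod_cast Finset.card_pos.2 ⟨i0, hi0⟩
  have hm0 : 0 < m := by linarith
  have hη1 : η < 1 := by
    have h1 := (hIm i0 hi0).trans_le (kmax_ind_le_one δ hD _)
    rw [← ENNReal.ofReal_one] at h1
    exact (ENNReal.ofReal_lt_ofReal_iff_of_nonneg hη.le).1 h1
  -- the choice of the positions
  have hex : ∀ i, ∃ a : E (d + 1), i ∈ I →
      ENNReal.ofReal (η * (kap d * δ ^ d)) ≤ volume (cyl (1 / 2) δ a (ω i : E (d + 1)) ∩ D) := by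
    intro i
    by_cases hi : i ∈ I
    · have h1 := hIm i hi
      unfold kmax at h1
      obtain ⟨a, ha⟩ := lt_iSup_iff.1 h1
      refine ⟨a, fun _ => ?_⟩
      rw [lintegral_indicator_one hD, Measure.restrict_apply hD] at ha
      have hn : ‖(ω i : E (d + 1))‖ = 1 := norm_eq_of_mem_sphere (ω i)
      set T := cyl (1 / 2) δ a (ω i : E (d + 1)) with hT
      have hT2 : ENNReal.ofReal (kap d * δ ^ d) ≤ volume T := vol_cyl_ge hδ hn
      have hT0 : volume T ≠ 0 := by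
        have h3 : 0 < ENNReal.ofReal (kap d * δ ^ d) := ENNReal.ofReal_pos.2 (by positivity)
        exact (h3.trans_le hT2).ne'
      have hTt : volume T ≠ ⊤ := ne_top_of_le_ne_top ENNReal.ofReal_ne_top
        (vol_cyl_le (by norm_num) hδ.le hn)
      -- `η |T| ≤ |D ∩ T|`
      have h4 : ENNReal.ofReal η * volume T ≤ volume (D ∩ T) := by
        calc ENNReal.ofReal η * volume T ≤ ((volume T)⁻¹ * volume (D ∩ T)) * volume T := by gcongr
          _ = volume (D ∩ T) := by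
              rw [mul_comm, ← mul_assoc, ENNReal.mul_inv_cancel hT0 hTt, one_mul]
      rw [inter_comm]
      calc ENNReal.ofReal (η * (kap d * δ ^ d)) = ENNReal.ofReal η * ENNReal.ofReal (kap d * δ ^ d) :=
            ENNReal.ofReal_mul hη.le
        _ ≤ ENNReal.ofReal η * volume T := by gcongr
        _ ≤ _ := h4
    · exact ⟨0, fun hh => absurd hh hi⟩
  choose a ha using hex
  have hH := hoelder δ ω a I hD hq1
  have hL : ENNReal.ofReal (m * (η * (kap d * δ ^ d))) ≤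
      ∑ i ∈ I, volume (cyl (1 / 2) δ (a i) (ω i : E (d + 1)) ∩ D) := by
    have h1 : ∑ _i ∈ I, ENNReal.ofReal (η * (kap d * δ ^ d)) ≤
        ∑ i ∈ I, volume (cyl (1 / 2) δ (a i) (ω i : E (d + 1)) ∩ D) :=
      Finset.sum_le_sum fun i hi => ha i hi
    rw [Finset.sum_const, nsmul_eq_mul, ← ENNReal.ofReal_natCast,
      ← ENNReal.ofReal_mul (Nat.cast_nonneg _), ← hm] at h1
    exact h1
  have hR : (∫⁻ y, FF δ ω a I y ^ q) ^ (1 / q) * volume D ^ (1 - 1 / q) ≤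
      ENNReal.ofReal ((C * (δ ^ d * m ^ (q - 1 / (d : ℝ)))) ^ (1 / q) * v ^ (1 - 1 / q)) := by
    have hq2 : 0 ≤ 1 - 1 / q := by
      rw [sub_nonneg, div_le_one hq0]; exact hq1.le
    rw [ENNReal.ofReal_mul (by positivity), ← ENNReal.ofReal_rpow_of_nonneg (by positivity)
      (by positivity), ← ENNReal.ofReal_rpow_of_nonneg hv0 hq2, hve]
    gcongr
    rw [hm]
    exact h a I
  have hreal := (ENNReal.ofReal_le_ofReal_iff (by positivity)).1 (hL.trans (hH.trans hR))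
  have hMm : m * δ ^ d ≤ 1 := by
    refine le_trans ?_ hM
    have := Finset.card_le_univ I
    rw [Fintype.card_fin] at this
    have h1 : m ≤ M := by rw [hm]; exact_mod_cast this
    gcongr
  exact real_weak hd ht hδ hδ1 hC hκ hm1 hMm hη hη1 hv0 hq hreal

/-- the number of scales -/
theorem exists_J (hd : 1 ≤ d) {s : ℝ} (hs : 0 < s) : ∃ C : ℝ, 1 ≤ C ∧ ∀ δ : ℝ, 0 < δ → δ < 1 →
    ∃ J : ℕ, 1 + (kap d * δ ^ d)⁻¹ ≤ 2 ^ J ∧ (J : ℝ) ≤ C * δ ^ (-s) := by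
  have hκ := kap_pos d
  obtain ⟨J0, hJ0⟩ : ∃ J0 : ℕ, 1 + (kap d)⁻¹ ≤ (2 : ℝ) ^ J0 := by
    obtain ⟨k, hk⟩ := pow_unbounded_of_one_lt (1 + (kap d)⁻¹) (one_lt_two : (1 : ℝ) < 2)
    exact ⟨k, hk.le⟩
  refine ⟨J0 + 1 + 2 * d / s, by
    have : 0 ≤ 2 * (d : ℝ) / s := by positivity
    have h2 : (0 : ℝ) ≤ J0 := Nat.cast_nonneg _
    linarith, ?_⟩
  intro δ hδ hδ1
  set L : ℝ := -Real.log δ with hL
  have hL0 : 0 < L := by
    have := Real.log_neg hδ hδ1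
    rw [hL]; linarith
  have hrp : ∀ x : ℝ, δ ^ (-x) = Real.exp (L * x) := by
    intro x
    rw [Real.rpow_def_of_pos hδ, hL]
    congr 1; ring
  have h1 : 1 ≤ δ ^ (-s) := by
    rw [hrp]; exact Real.one_le_exp (by positivity)
  have h2 : L ≤ 1 / s * δ ^ (-s) := by
    rw [hrp, div_mul_eq_mul_div, one_mul, le_div_iff₀ hs]
    have := Real.add_one_le_exp (L * s)
    linarith
  refine ⟨J0 + ⌈2 * d * L⌉₊, ?_, ?_⟩
  · have h3 : 2 * d * L ≤ ⌈2 * d * L⌉₊ := Nat.le_ceil _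
    have h4 : (δ ^ d)⁻¹ ≤ (2 : ℝ) ^ ⌈2 * d * L⌉₊ := by
      have h5 : (δ ^ d)⁻¹ = Real.exp (L * d) := by
        rw [← hrp, Real.rpow_neg hδ.le, Real.rpow_natCast]
      have h6 : (2 : ℝ) ^ ⌈2 * d * L⌉₊ = Real.exp (Real.log 2 * ⌈2 * d * L⌉₊) := by
        rw [← Real.rpow_natCast, Real.rpow_def_of_pos (by norm_num)]
      rw [h5, h6]
      apply Real.exp_le_exp.2
      have h7 : (1 : ℝ) / 2 < Real.log 2 := by
        have := Real.log_two_gt_d9
        linarith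
      have h8 : 0 ≤ 2 * d * L := by positivity
      nlinarith
    have h9 : 1 ≤ (δ ^ d)⁻¹ := by
      rw [one_le_inv₀ (by positivity)]
      exact pow_le_one₀ hδ.le hδ1.le
    rw [mul_inv, pow_add]
    calc 1 + (kap d)⁻¹ * (δ ^ d)⁻¹ ≤ 1 * (δ ^ d)⁻¹ + (kap d)⁻¹ * (δ ^ d)⁻¹ := by
          rw [one_mul]; linarith
      _ = (1 + (kap d)⁻¹) * (δ ^ d)⁻¹ := by ring
      _ ≤ 2 ^ J0 * 2 ^ ⌈2 * d * L⌉₊ := by gcongr
  · have h3 := (Nat.ceil_lt_add_one (by positivity : 0 ≤ 2 * d * L)).le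
    push_cast
    calc (J0 : ℝ) + ⌈2 * d * L⌉₊ ≤ (J0 + 1) * 1 + 2 * d * L := by linarith
      _ ≤ (J0 + 1) * δ ^ (-s) + 2 * d * (1 / s * δ ^ (-s)) := by gcongr
      _ = _ := by ring

theorem down (hd : 1 ≤ d) {γ : ℝ} (hγ : 0 ≤ γ) (h : RT d γ) : RandP d (Pu d) ((d : ℝ) + 1) γ := by
  classical
  intro ε hε B hB
  have hκ := kap_pos d
  have hd0 : (0 : ℝ) < d := by exact_mod_cast hd
  have hd1 : (1 : ℝ) ≤ d := by exact_mod_cast hd
  obtain ⟨t, ht⟩ : ∃ t : ℝ, t = ε / (4 * d) := ⟨_, rfl⟩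
  obtain ⟨p, hp⟩ : ∃ p : ℝ, p = (d : ℝ) + 1 := ⟨_, rfl⟩
  obtain ⟨s, hs⟩ : ∃ s : ℝ, s = ε / (2 * (p + 2)) := ⟨_, rfl⟩
  have hp2 : 2 ≤ p := by linarith
  have ht0 : 0 < t := by rw [ht]; positivity
  have hs0 : 0 < s := by rw [hs]; positivity
  obtain ⟨C, hC, h⟩ := h (1 + 1 / (d : ℝ) + t / d) (by
    have : 0 < t / (d : ℝ) := by positivity
    linarith) B hB
  obtain ⟨C2, hC2, hJ⟩ := exists_J hd hs0
  set C1 : ℝ := (C + 1) ^ d * (kap d) ^ (-((d : ℝ) + 1 + t)) + 1 with hC1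
  have hC10 : 0 < C1 := by positivity
  set C3 : ℝ := 4 ^ p + C2 * (2 ^ p * (C1 * (4 * C2) ^ p * C2)) with hC3
  have hC20 : 0 < C2 := by linarith
  have hC30 : 0 < C3 := by positivity
  refine ⟨C + C3, by positivity, ?_⟩
  intro δ hδ hδ1 M hM
  have hMd : (M : ℝ) * δ ^ d ≤ 1 := Pool.Agent.N248.KR.M_le hγ hδ hδ1 hM
  have hδB : 0 < δ ^ B := by positivity
  refine (measure_mono ?_).trans ((h δ hδ hδ1 M hM).trans (ENNReal.ofReal_le_ofReal (by
    gcongr; linarith)))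
  intro ω hω
  by_contra hcon
  have hcon' : ∀ (a : Fin M → E (d + 1)) (J : Finset (Fin M)),
      ∫⁻ y, FF δ ω a J y ^ (1 + 1 / (d : ℝ) + t / d) ≤ ENNReal.ofReal (C *
        (δ ^ d * (J.card : ℝ) ^ (1 + 1 / (d : ℝ) + t / d - 1 / (d : ℝ)))) := by
    by_contra hh; exact hcon hh
  apply hω
  obtain ⟨J, hJ1, hJ2⟩ := hJ δ hδ hδ1
  have hnn : ∀ J : Finset (Fin M),
      0 ≤ δ ^ d * (J.card : ℝ) ^ (1 + 1 / (d : ℝ) + t / d - 1 / (d : ℝ)) := fun J =>
    mul_nonneg (by positivity) (Real.rpow_nonneg (Nat.cast_nonneg _) _)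
  have hw := weak_of_tubes hd ht0 hδ hδ1 (by linarith : 1 ≤ C + 1) hMd (fun a J =>
    (hcon' a J).trans (ENNReal.ofReal_le_ofReal
      (mul_le_mul_of_nonneg_right (by linarith) (hnn J))))
  intro f hf
  have hω1 : ∀ i, ‖(ω i : E (d + 1))‖ = 1 := fun i => norm_eq_of_mem_sphere (ω i)
  have hmain := strong hδ hp2 (A := (C + 1) ^ d * (kap d) ^ (-((d : ℝ) + 1 + t)) *
    δ ^ (-(2 * d * t)) + 1) (by positivity) (fun i => (ω i : E (d + 1))) hω1
    (fun D hD hDf η hη => by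
      rw [hp]
      exact hw D hD hDf η hη) hMd J hJ1 hf
  rw [← hp]
  refine hmain.trans ?_
  gcongr ENNReal.ofReal ?_ * _
  have hx1 : 1 ≤ δ ^ (-(2 * d * t)) := Real.one_le_rpow_of_pos_of_le_one_of_nonpos hδ hδ1.le
    (by rw [neg_nonpos]; positivity)
  have hy1 : 1 ≤ δ ^ (-s) := Real.one_le_rpow_of_pos_of_le_one_of_nonpos hδ hδ1.le (by linarith)
  have hz1 : 1 ≤ δ ^ (-ε) := Real.one_le_rpow_of_pos_of_le_one_of_nonpos hδ hδ1.le (by linarith)
  have hJ0 : (0 : ℝ) ≤ J := Nat.cast_nonneg _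
  have g1 : (C + 1) ^ d * (kap d) ^ (-((d : ℝ) + 1 + t)) * δ ^ (-(2 * d * t)) + 1 ≤
      C1 * δ ^ (-(2 * d * t)) := by
    rw [hC1, add_mul, one_mul]
    linarith
  have g2 : (4 * (C2 * δ ^ (-s))) ^ p = (4 * C2) ^ p * δ ^ (-(s * p)) := by
    rw [← mul_assoc, Real.mul_rpow (by positivity) (by positivity), ← Real.rpow_mul hδ.le]
    congr 2; ring
  have g3 : δ ^ (-s) * (δ ^ (-(2 * d * t)) * δ ^ (-(s * p)) * δ ^ (-s)) = δ ^ (-ε) := by
    rw [← Real.rpow_add hδ, ← Real.rpow_add hδ, ← Real.rpow_add hδ]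
    congr 1
    rw [hs, ht]
    field_simp
    ring
  calc 4 ^ p + (J : ℝ) * (2 ^ p * (((C + 1) ^ d * (kap d) ^ (-((d : ℝ) + 1 + t)) *
        δ ^ (-(2 * d * t)) + 1) * (4 * J) ^ p * J))
      ≤ 4 ^ p + (C2 * δ ^ (-s)) * (2 ^ p * ((C1 * δ ^ (-(2 * d * t))) *
          (4 * (C2 * δ ^ (-s))) ^ p * (C2 * δ ^ (-s)))) := by gcongr
    _ = 4 ^ p * 1 + C2 * (2 ^ p * (C1 * (4 * C2) ^ p * C2)) *
          (δ ^ (-s) * (δ ^ (-(2 * d * t)) * δ ^ (-(s * p)) * δ ^ (-s))) := by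
        rw [g2]; ring
    _ ≤ 4 ^ p * δ ^ (-ε) + C2 * (2 ^ p * (C1 * (4 * C2) ^ p * C2)) * δ ^ (-ε) := by
        rw [g3]; gcongr
    _ = C3 * δ ^ (-ε) := by rw [hC3]; ring
    _ ≤ (C + C3) * δ ^ (-ε) := by gcongr; linarith

end Pool.Agent.N248.KT
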