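import Mathlib
import Pool.Agent.N248.KT.Down
import Pool.Agent.N248.KR.Src
set_option autoImplicit false

/-! Random tubes: the final form. -/

namespace Pool.Agent.N248.KT

open MeasureTheory Set Metric
open scoped ENNReal NNReal
open Pool.Agent.N248.KR (E Dir Good Pu RandP KB kmax kmax_ind_le_one WeakAt weak_range fwd
  KB_iff_rand)

variable {d M : ℕ}

theorem RT_mono {γ γ' : ℝ} (h : RT d γ) (hγ : γ ≤ γ') : RT d γ' := by
  intro q hq B hB
  obtain ⟨C, hC, h⟩ := h q hq B hB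
  refine ⟨C, hC, fun δ hδ hδ1 M hM => h δ hδ hδ1 M (hM.trans ?_)⟩
  exact Real.rpow_le_rpow_of_exponent_ge hδ hδ1.le (by linarith)

/-- the equivalence -/
theorem KB_iff_RT (hd : 2 ≤ d) {γ : ℝ} (hγ : 0 < γ) (hγd : γ ≤ d) :
    KB d (Pu d) ((d : ℝ) + 1) γ ↔ RT d γ := by
  have hd2 : (2 : ℝ) ≤ d := by exact_mod_cast hd
  rw [KB_iff_rand (by omega) (by linarith) hγ.le hγd]
  exact ⟨up hd hγ hγd, down (by omega) hγ.le⟩

theorem KB_zero (hd : 2 ≤ d) : KB d (Pu d) ((d : ℝ) + 1) 0 ↔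
    ∀ γ : ℝ, 0 < γ → γ ≤ d → RT d γ := by
  have hd2 : (2 : ℝ) ≤ d := by exact_mod_cast hd
  constructor
  · intro h γ hγ hγd
    rw [← KB_iff_RT hd hγ hγd]
    intro ε hε
    obtain ⟨C, hC, h⟩ := h ε hε
    refine ⟨C, hC, fun δ hδ hδ1 f hf => (h δ hδ hδ1 f hf).trans ?_⟩
    gcongr ENNReal.ofReal (_ * ?_) * _
    exact Real.rpow_le_rpow_of_exponent_ge hδ hδ1.le (by linarith)
  · intro h ε hε
    have hm : 0 < min (ε / 2) d := lt_min (by linarith) (by linarith)
    have h1 := (KB_iff_RT hd hm (min_le_right _ _)).2 (h _ hm (min_le_right _ _))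
    obtain ⟨C, hC, h1⟩ := h1 (ε / 2) (by linarith)
    refine ⟨C, hC, fun δ hδ hδ1 f hf => (h1 δ hδ hδ1 f hf).trans ?_⟩
    gcongr ENNReal.ofReal (_ * ?_) * _
    refine Real.rpow_le_rpow_of_exponent_ge hδ hδ1.le ?_
    have := min_le_left (ε / 2) (d : ℝ)
    linarith

/-- from the exponent `p` to a larger exponent -/
theorem weak_up {p p' A δ : ℝ} (hpp : p ≤ p') (hA : 0 ≤ A) (h : WeakAt (Pu d) p A δ) :
    WeakAt (Pu d) p' A δ := by
  intro D hD hDf t ht
  rcases lt_or_ge t 1 with ht1 | ht1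
  · refine (h D hD hDf t ht).trans ?_
    gcongr ENNReal.ofReal (_ * ?_) * _
    exact Real.rpow_le_rpow_of_exponent_ge ht ht1.le (by linarith)
  · have : {θ : Dir (d + 1) | ENNReal.ofReal t < kmax δ (D.indicator 1) θ} = ∅ := by
      rw [eq_empty_iff_forall_notMem]
      intro θ hθ
      have h1 : ENNReal.ofReal t < kmax δ (D.indicator 1) θ := hθ
      have h2 := h1.trans_le (kmax_ind_le_one δ hD _)
      rw [← ENNReal.ofReal_one] at h2
      have h3 := (ENNReal.ofReal_lt_ofReal_iff_of_nonneg ht.le).1 h2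
      linarith
    rw [this, measure_empty]
    exact zero_le

theorem RT_of_weak (hd : 2 ≤ d) {p : ℝ} (hp : 2 ≤ p) (hpd : p < d + 1)
    (h : ∀ ε : ℝ, 0 < ε → ∃ C : ℝ, 0 < C ∧ ∀ r : ℝ, 0 < r → r < 1 →
      WeakAt (Pu d) p (C * r ^ (-(d + 1 - p) - ε)) r) : RT d ((d : ℝ) + 1 - p) := by
  have hd2 : (2 : ℝ) ≤ d := by exact_mod_cast hd
  refine up hd (by linarith) (by linarith) (fwd (by omega) (by linarith) (by linarith) (Pu d) ?_)
  intro ε hε
  obtain ⟨C, hC, h⟩ := h ε hε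
  exact ⟨C, hC, fun r hr hr1 => weak_up hpd.le (by positivity) (h r hr hr1)⟩

/-- **the range of Wolff** -/
theorem RT_wolff (hd : 2 ≤ d) {γ : ℝ} (hγ : ((d : ℝ) - 1) / 2 ≤ γ) : RT d γ := by
  have hd2 : (2 : ℝ) ≤ d := by exact_mod_cast hd
  have h1 : RT d ((d : ℝ) + 1 - ((d : ℝ) + 3) / 2) := by
    refine RT_of_weak hd (by linarith) (by linarith) (weak_range (by omega)
      (c0 := 2 * (d : ℝ) / ((d : ℝ) + 1)) ?_
      (fun c hc => (Pool.Agent.Y244.WR.wolff_max hd hc).1) (by linarith) ?_)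
    · rw [le_div_iff₀ (by linarith)]
      linarith
    · have : (d : ℝ) / (2 * (d : ℝ) / ((d : ℝ) + 1)) = ((d : ℝ) + 1) / 2 := by
        field_simp
      rw [this]
      linarith
  refine RT_mono h1 ?_
  linarith

/-- **the hybrid range** -/
theorem RT_hybrid (hd : 9 ≤ d) {γ : ℝ} (hγ : 17 / 42 * (d : ℝ) ≤ γ) : RT d γ := by
  have hd9 : (9 : ℝ) ≤ d := by exact_mod_cast hd
  have h1 : RT d ((d : ℝ) + 1 - (1 + 25 / 42 * (d : ℝ))) := by
    refine RT_of_weak (by omega) (by linarith) (by linarith) (weak_range (by omega)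
      (c0 := 42 / 25) (by norm_num) (fun c hc => ?_) (by linarith) ?_)
    · refine (Pool.Agent.Y254HK.max_mix hd (x := 0) ⟨le_rfl, zero_le_one, by linarith, ?_, ?_⟩).1
      · have h1 : 0 < c ^ 3 - 4 * c + 2 := by
          nlinarith [mul_pos (show 0 < c - 42 / 25 by linarith) (show 0 < c - 42 / 25 by linarith),
            mul_pos (mul_pos (show 0 < c - 42 / 25 by linarith)
              (show 0 < c - 42 / 25 by linarith)) (show 0 < c - 42 / 25 by linarith)]
        rw [zero_mul, add_zero]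
        positivity
      · rw [zero_mul, zero_mul, add_zero, add_zero]
        have h2 : 0 < c ^ 2 - 1 := by nlinarith
        nlinarith
    · linarith
  refine RT_mono h1 ?_
  linarith

/-- the inequality of the problem for the directions `ω` -/
def Ineq (q C δ : ℝ) (ω : Fin M → Dir (d + 1)) : Prop :=
  ∀ (a : Fin M → E (d + 1)) (J : Finset (Fin M)), (∫⁻ y, FF δ ω a J y ^ q) ^ (1 / q) ≤
    ENNReal.ofReal (C * δ ^ ((d : ℝ) / q) * (J.card : ℝ) ^ (1 - 1 / (q * d)))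

theorem norm_of_pow {q C δ m : ℝ} (hq : 1 < q) (hδ : 0 < δ) (hm : 0 ≤ m) (hC : 0 ≤ C)
    {X : ℝ≥0∞} (h : X ≤ ENNReal.ofReal (C * (δ ^ d * m ^ (q - 1 / (d : ℝ))))) :
    X ^ (1 / q) ≤ ENNReal.ofReal ((C + 1) * δ ^ ((d : ℝ) / q) * m ^ (1 - 1 / (q * d))) := by
  have hq0 : 0 < q := by linarith
  have h1 : 0 ≤ C * (δ ^ d * m ^ (q - 1 / (d : ℝ))) := by positivity
  calc X ^ (1 / q) ≤ (ENNReal.ofReal (C * (δ ^ d * m ^ (q - 1 / (d : ℝ))))) ^ (1 / q) := by gcongr
    _ = ENNReal.ofReal ((C * (δ ^ d * m ^ (q - 1 / (d : ℝ)))) ^ (1 / q)) :=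
        ENNReal.ofReal_rpow_of_nonneg h1 (by positivity)
    _ ≤ _ := by
        apply ENNReal.ofReal_le_ofReal
        rw [Real.mul_rpow hC (by positivity), Real.mul_rpow (by positivity) (by positivity),
          ← Real.rpow_natCast δ d, ← Real.rpow_mul hδ.le, ← Real.rpow_mul hm, ← mul_assoc]
        have h2 : (d : ℝ) * (1 / q) = d / q := by ring
        have h3 : (q - 1 / (d : ℝ)) * (1 / q) = 1 - 1 / (q * d) := by
          rw [sub_mul, mul_one_div_cancel hq0.ne', one_div_mul_one_div, mul_comm (d : ℝ) q]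
        rw [h2, h3]
        have h4 : C ^ (1 / q) ≤ C + 1 := by
          rcases le_or_gt C 1 with h5 | h5
          · have := Real.rpow_le_one hC h5 (by positivity : 0 ≤ 1 / q)
            linarith
          · calc C ^ (1 / q) ≤ C ^ (1 : ℝ) :=
                  Real.rpow_le_rpow_of_exponent_le h5.le (by
                    rw [div_le_one hq0]; exact hq.le)
              _ = C := Real.rpow_one C
              _ ≤ C + 1 := by linarith
        gcongr

theorem pow_of_norm {q C δ m : ℝ} (hq : 1 < q) (hδ : 0 < δ) (hm : 0 ≤ m) (hC : 0 ≤ C)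
    {X : ℝ≥0∞} (h : X ^ (1 / q) ≤
      ENNReal.ofReal (C * δ ^ ((d : ℝ) / q) * m ^ (1 - 1 / (q * d)))) :
    X ≤ ENNReal.ofReal (C ^ q * (δ ^ d * m ^ (q - 1 / (d : ℝ)))) := by
  have hq0 : 0 < q := by linarith
  have h1 : 0 ≤ C * δ ^ ((d : ℝ) / q) * m ^ (1 - 1 / (q * d)) := by positivity
  calc X = (X ^ (1 / q)) ^ q := by
        rw [← ENNReal.rpow_mul, one_div_mul_cancel hq0.ne', ENNReal.rpow_one]
    _ ≤ (ENNReal.ofReal (C * δ ^ ((d : ℝ) / q) * m ^ (1 - 1 / (q * d)))) ^ q := by gcongr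
    _ = ENNReal.ofReal ((C * δ ^ ((d : ℝ) / q) * m ^ (1 - 1 / (q * d))) ^ q) :=
        ENNReal.ofReal_rpow_of_nonneg h1 hq0.le
    _ = _ := by
        congr 1
        rw [Real.mul_rpow (by positivity) (by positivity), Real.mul_rpow hC (by positivity),
          ← Real.rpow_mul hδ.le, ← Real.rpow_mul hm, ← Real.rpow_natCast δ d]
        have h2 : (d : ℝ) / q * q = d := by field_simp
        have h3 : (1 - 1 / (q * (d : ℝ))) * q = q - 1 / (d : ℝ) := by
          rcases Nat.eq_zero_or_pos d with h0 | h0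
          · subst h0; simp
          · have hd0 : (0 : ℝ) < d := by exact_mod_cast h0
            field_simp
        rw [h2, h3]
        ring

/-- the norm form -/
theorem RT_iff (hd : 1 ≤ d) {γ : ℝ} : RT d γ ↔
    ∀ q : ℝ, 1 + 1 / (d : ℝ) < q → ∀ B : ℝ, 0 < B → ∃ C : ℝ, 0 < C ∧ ∀ δ : ℝ, 0 < δ → δ < 1 →
    ∀ M : ℕ, (M : ℝ) ≤ δ ^ (-((d : ℝ) - γ)) →
    (Measure.pi fun _ : Fin M => Pu d) {ω | ¬ Ineq q C δ ω} ≤ ENNReal.ofReal (C * δ ^ B) := by
  have hd0 : (0 : ℝ) < d := by exact_mod_cast hd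
  have hid : 0 < 1 / (d : ℝ) := by positivity
  constructor
  · intro h q hq B hB
    obtain ⟨C, hC, h⟩ := h q hq B hB
    refine ⟨C + 1, by positivity, fun δ hδ hδ1 M hM => ?_⟩
    refine (measure_mono ?_).trans ((h δ hδ hδ1 M hM).trans (ENNReal.ofReal_le_ofReal (by
      gcongr; linarith)))
    intro ω hω hcon
    exact hω fun a J => norm_of_pow (by linarith) hδ (Nat.cast_nonneg _) hC.le (hcon a J)
  · intro h q hq B hB
    obtain ⟨C, hC, h⟩ := h q hq B hB
    refine ⟨C ^ q + C, by positivity, fun δ hδ hδ1 M hM => ?_⟩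
    have hCq : 0 < C ^ q := by positivity
    refine (measure_mono ?_).trans ((h δ hδ hδ1 M hM).trans (ENNReal.ofReal_le_ofReal (by
      gcongr; linarith)))
    intro ω hω hcon
    refine hω fun a J => (pow_of_norm (by linarith) hδ (Nat.cast_nonneg _) hC.le
      (hcon a J)).trans (ENNReal.ofReal_le_ofReal ?_)
    refine mul_le_mul_of_nonneg_right (by linarith) ?_
    exact mul_nonneg (by positivity) (Real.rpow_nonneg (Nat.cast_nonneg _) _)

end Pool.Agent.N248.KT
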